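import Mathlib

set_option autoImplicit false

namespace Pool.Agent.Helper582.Cube

open Set

/-- the family left when Maker takes `x` and Breaker answers `y` -/
def reply {X : Type*} (H : Set (Set X)) (x y : X) : Set (Set X) :=
  {s | ∃ e ∈ H, y ∉ e ∧ s = e \ {x}}

/-- `I` is a safe invariant for Breaker (Maker to move) -/
def Safe {X : Type*} (I : Set (Set X) → Prop) : Prop :=
  ∀ H, I H → (∅ ∉ H) ∧ ∀ x, ∃ y, y ≠ x ∧ I (reply H x y)

/-- Breaker, moving second, can hit every set of the family before Maker fills one -/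
def BW {X : Type*} (H : Set (Set X)) : Prop := ∃ I, Safe I ∧ I H

/-- every member of `K` contains a member of `H` -/
def Ref {X : Type*} (H K : Set (Set X)) : Prop := ∀ k ∈ K, ∃ h ∈ H, h ⊆ k

theorem safe_BW {X : Type*} : Safe (BW : Set (Set X) → Prop) := by
  rintro H ⟨I, hI, hH⟩
  refine ⟨(hI H hH).1, fun x => ?_⟩
  obtain ⟨y, hy, h⟩ := (hI H hH).2 x
  exact ⟨y, hy, I, hI, h⟩

theorem BW.mono {X : Type*} {H K : Set (Set X)} (h : BW H) (hr : Ref H K) : BW K := by
  refine ⟨fun K => ∃ H, BW H ∧ Ref H K, ?_, H, h, hr⟩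
  rintro K ⟨H, hH, hr⟩
  refine ⟨fun h0 => ?_, fun x => ?_⟩
  · obtain ⟨e, he, hs⟩ := hr _ h0
    have : e = ∅ := by simpa using hs
    exact (safe_BW H hH).1 (this ▸ he)
  · obtain ⟨y, hy, h⟩ := (safe_BW H hH).2 x
    refine ⟨y, hy, _, h, ?_⟩
    rintro k ⟨e, he, hye, rfl⟩
    obtain ⟨g, hg, hge⟩ := hr e he
    exact ⟨g \ {x}, ⟨g, hg, fun h => hye (hge h), rfl⟩, sdiff_subset_sdiff_left hge⟩

theorem BW.node {X : Type*} [Nontrivial X] {H : Set (Set X)} (h0 : ∅ ∉ H)
    (h : ∀ x ∈ ⋃₀ H, ∃ y, y ≠ x ∧ BW (reply H x y)) : BW H := by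
  refine ⟨fun K => BW K ∨ Ref H K, ?_, Or.inr fun k hk => ⟨k, hk, subset_rfl⟩⟩
  rintro K (hK | hK)
  · refine ⟨(safe_BW K hK).1, fun x => ?_⟩
    obtain ⟨y, hy, h⟩ := (safe_BW K hK).2 x
    exact ⟨y, hy, Or.inl h⟩
  · refine ⟨fun h1 => ?_, fun x => ?_⟩
    · obtain ⟨e, he, hs⟩ := hK _ h1
      have : e = ∅ := by simpa using hs
      exact h0 (this ▸ he)
    · by_cases hx : x ∈ ⋃₀ H
      · obtain ⟨y, hy, hb⟩ := h x hx
        refine ⟨y, hy, Or.inl (hb.mono ?_)⟩
        rintro k ⟨e, he, hye, rfl⟩
        obtain ⟨g, hg, hge⟩ := hK e he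
        exact ⟨g \ {x}, ⟨g, hg, fun h => hye (hge h), rfl⟩, sdiff_subset_sdiff_left hge⟩
      · obtain ⟨y, hy⟩ := exists_ne x
        refine ⟨y, hy, Or.inr ?_⟩
        rintro k ⟨e, he, hye, rfl⟩
        obtain ⟨g, hg, hge⟩ := hK e he
        exact ⟨g, hg, fun a ha => ⟨hge ha, fun hax => hx ⟨g, hg, by
          rw [mem_singleton_iff] at hax; rwa [← hax]⟩⟩⟩

theorem BW.empty {X : Type*} [Nontrivial X] : BW (∅ : Set (Set X)) :=
  BW.node (by simp) (by simp)

theorem BW.union {X : Type*} {H K : Set (Set X)} (h : BW H) (k : BW K)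
    (hd : ∀ a, a ∈ ⋃₀ H → a ∉ ⋃₀ K) : BW (H ∪ K) := by
  refine ⟨fun L => ∃ H K, BW H ∧ BW K ∧ (∀ a, a ∈ ⋃₀ H → a ∉ ⋃₀ K) ∧ L = H ∪ K, ?_,
    H, K, h, k, hd, rfl⟩
  rintro L ⟨H, K, h, k, hd, rfl⟩
  refine ⟨?_, fun x => ?_⟩
  · rintro (h0 | h0)
    · exact (safe_BW H h).1 h0
    · exact (safe_BW K k).1 h0
  · have key : ∀ (A : Set (Set X)) (y : X), BW A → x ∉ ⋃₀ A → BW (reply A x y) := by
      intro A y hA hx
      refine hA.mono ?_
      rintro s ⟨e, he, _, rfl⟩
      refine ⟨e, he, fun a ha => ⟨ha, fun hax => hx ⟨e, he, ?_⟩⟩⟩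
      rw [mem_singleton_iff] at hax; rwa [← hax]
    have hsub : ∀ (A : Set (Set X)) (y a : X), a ∈ ⋃₀ (reply A x y) → a ∈ ⋃₀ A := by
      rintro A y a ⟨s, ⟨e, he, _, rfl⟩, ha⟩
      exact ⟨e, he, ha.1⟩
    have hun : ∀ (A B : Set (Set X)) (y : X), reply (A ∪ B) x y = reply A x y ∪ reply B x y := by
      intro A B y
      ext s
      simp only [reply, mem_union, mem_ofPred_eq]
      constructor
      · rintro ⟨e, (he | he), h1, h2⟩
        · exact Or.inl ⟨e, he, h1, h2⟩
        · exact Or.inr ⟨e, he, h1, h2⟩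
      · rintro (⟨e, he, h1, h2⟩ | ⟨e, he, h1, h2⟩)
        · exact ⟨e, Or.inl he, h1, h2⟩
        · exact ⟨e, Or.inr he, h1, h2⟩
    by_cases hx : x ∈ ⋃₀ H
    · obtain ⟨y, hy, hb⟩ := (safe_BW H h).2 x
      exact ⟨y, hy, _, _, hb, key K y k (hd x hx), fun a ha hb' => hd a (hsub _ _ _ ha) (hsub _ _ _ hb'),
        hun _ _ _⟩
    · obtain ⟨y, hy, hb⟩ := (safe_BW K k).2 x
      exact ⟨y, hy, _, _, key H y h hx, hb, fun a ha hb' => hd a (hsub _ _ _ ha) (hsub _ _ _ hb'),
        hun _ _ _⟩

/-- transfer along an injective coding of cells -/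
theorem BW.pull {X Y : Type*} [Nontrivial X] {K : Set (Set Y)} (hK : BW K) (f : X → Y)
    (hf : Function.Injective f) {H : Set (Set X)}
    (h : ∀ e ∈ H, ∃ k ∈ K, k ⊆ f '' e) : BW H := by
  refine ⟨fun H => ∃ K, BW K ∧ ∀ e ∈ H, ∃ k ∈ K, k ⊆ f '' e, ?_, K, hK, h⟩
  rintro H ⟨K, hK, h⟩
  refine ⟨fun h0 => ?_, fun x => ?_⟩
  · obtain ⟨k, hk, hs⟩ := h _ h0
    have : k = ∅ := by simpa using hs
    exact (safe_BW K hK).1 (this ▸ hk)
  · obtain ⟨y', hy', hb⟩ := (safe_BW K hK).2 (f x)
    have main : ∀ y, y ≠ x → (∀ e ∈ H, y ∉ e → y' ∉ f '' e) →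
        ∃ y, y ≠ x ∧ ∃ K, BW K ∧ ∀ e ∈ reply H x y, ∃ k ∈ K, k ⊆ f '' e := by
      intro y hy hcond
      refine ⟨y, hy, _, hb, ?_⟩
      rintro s ⟨e, he, hye, rfl⟩
      obtain ⟨k, hk, hke⟩ := h e he
      refine ⟨k \ {f x}, ⟨k, hk, fun hh => hcond e he hye (hke hh), rfl⟩, ?_⟩
      rintro a ⟨ha, hax⟩
      obtain ⟨b, hb, rfl⟩ := hke ha
      exact ⟨b, ⟨hb, fun hbx => hax (by rw [mem_singleton_iff] at hbx ⊢; rw [hbx])⟩, rfl⟩
    by_cases hr : ∃ y, f y = y'
    · obtain ⟨y, rfl⟩ := hr
      refine main y (fun hh => hy' (by rw [hh])) ?_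
      rintro e he hye ⟨b, hb, hbe⟩
      exact hye (hf hbe ▸ hb)
    · obtain ⟨y, hy⟩ := exists_ne x
      refine main y hy ?_
      rintro e he _ ⟨b, hb, hbe⟩
      exact hr ⟨b, hbe⟩

section Strategy

variable {X : Type*} (F : Set (Set X))

/-- cells at even places of a play -/
def Mk (p : List X) : Set X := {c | ∃ m : ℕ, Even m ∧ p[m]? = some c}

/-- cells at odd places of a play -/
def Br (p : List X) : Set X := {c | ∃ m : ℕ, Odd m ∧ p[m]? = some c}

/-- what is left of the sets without Breaker cells -/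
def alive (p : List X) : Set (Set X) := {s | ∃ e ∈ F, (∀ c ∈ e, c ∉ Br p) ∧ s = e \ Mk p}

theorem mem_of_Mk {p : List X} {c : X} (h : c ∈ Mk p) : c ∈ p := by
  obtain ⟨m, _, hm⟩ := h
  exact List.mem_of_getElem? hm

theorem mem_of_Br {p : List X} {c : X} (h : c ∈ Br p) : c ∈ p := by
  obtain ⟨m, _, hm⟩ := h
  exact List.mem_of_getElem? hm

theorem Mk_or_Br {p : List X} {c : X} (h : c ∈ p) : c ∈ Mk p ∨ c ∈ Br p := by
  obtain ⟨m, hm⟩ := List.getElem?_of_mem h
  rcases Nat.even_or_odd m with hm' | hm'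
  · exact Or.inl ⟨m, hm', hm⟩
  · exact Or.inr ⟨m, hm', hm⟩

theorem not_both {p : List X} (hp : p.Nodup) {c : X} (h : c ∈ Mk p) : c ∉ Br p := by
  obtain ⟨m, hm, hmc⟩ := h
  rintro ⟨k, hk, hkc⟩
  obtain ⟨hm1, hm2⟩ := List.getElem?_eq_some_iff.1 hmc
  obtain ⟨hk1, hk2⟩ := List.getElem?_eq_some_iff.1 hkc
  have : m = k := (List.Nodup.getElem_inj_iff hp).1 (hm2.trans hk2.symm)
  subst this
  exact (Nat.not_odd_iff_even.2 hm) hk

theorem Mk_append2 {p : List X} (hp : Even p.length) (x y : X) :
    Mk (p ++ [x, y]) = Mk p ∪ {x} := by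
  ext c
  constructor
  · rintro ⟨m, hm, h⟩
    rcases lt_trichotomy m p.length with hlt | heq | hgt
    · rw [List.getElem?_append_left hlt] at h
      exact Or.inl ⟨m, hm, h⟩
    · subst heq
      simp at h
      exact Or.inr h.symm
    · have : m = p.length + 1 ∨ p.length + 2 ≤ m := by omega
      rcases this with h1 | h1
      · subst h1
        exact absurd hm (by simp [Nat.even_add_one, hp])
      · rw [List.getElem?_eq_none (by simp; omega)] at h
        simp at h
  · rintro (⟨m, hm, h⟩ | h)
    · refine ⟨m, hm, ?_⟩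
      obtain ⟨h1, _⟩ := List.getElem?_eq_some_iff.1 h
      rw [List.getElem?_append_left h1, h]
    · rw [mem_singleton_iff] at h
      subst h
      exact ⟨p.length, hp, by simp⟩

theorem Br_append2 {p : List X} (hp : Even p.length) (x y : X) :
    Br (p ++ [x, y]) = Br p ∪ {y} := by
  ext c
  constructor
  · rintro ⟨m, hm, h⟩
    rcases lt_trichotomy m p.length with hlt | heq | hgt
    · rw [List.getElem?_append_left hlt] at h
      exact Or.inl ⟨m, hm, h⟩
    · subst heq
      exact absurd hm (Nat.not_odd_iff_even.2 hp)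
    · have : m = p.length + 1 ∨ p.length + 2 ≤ m := by omega
      rcases this with h1 | h1
      · subst h1
        rw [List.getElem?_append_right (by omega)] at h
        simp at h
        exact Or.inr h.symm
      · rw [List.getElem?_eq_none (by simp; omega)] at h
        simp at h
  · rintro (⟨m, hm, h⟩ | h)
    · refine ⟨m, hm, ?_⟩
      obtain ⟨h1, _⟩ := List.getElem?_eq_some_iff.1 h
      rw [List.getElem?_append_left h1, h]
    · rw [mem_singleton_iff] at h
      subst h
      refine ⟨p.length + 1, hp.add_one, ?_⟩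
      rw [List.getElem?_append_right (by omega)]
      have : p.length + 1 - p.length = 1 := by omega
      rw [this]
      rfl

theorem Mk_append1 {p : List X} (x : X) {c : X} (h : c ∈ Mk (p ++ [x])) : c ∈ Mk p ∨ c = x := by
  obtain ⟨m, hm, h⟩ := h
  rcases lt_trichotomy m p.length with hlt | heq | hgt
  · rw [List.getElem?_append_left hlt] at h
    exact Or.inl ⟨m, hm, h⟩
  · subst heq
    simp at h
    exact Or.inr h.symm
  · rw [List.getElem?_eq_none (by simp; omega)] at h
    simp at h

open Classical in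
/-- Breaker's strategy -/
noncomputable def strat [Nonempty X] (p : List X) : X :=
  if h : ∃ y, y ∉ p ∧ BW (alive F (p ++ [y])) then h.choose
  else if h2 : ∃ y, y ∉ p then h2.choose
  else Classical.arbitrary X

theorem strat_not_mem [Nonempty X] {p : List X} (h2 : ∃ y, y ∉ p) : strat F p ∉ p := by
  unfold strat
  split_ifs with h
  · exact h.choose_spec.1
  · exact h2.choose_spec

theorem strat_BW [Nonempty X] {p : List X} (h : ∃ y, y ∉ p ∧ BW (alive F (p ++ [y]))) :
    BW (alive F (p ++ [strat F p])) := by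
  unfold strat
  rw [dif_pos h]
  exact h.choose_spec.2

theorem step [Nonempty X] {p : List X} (hp : Even p.length) (hb : BW (alive F p)) (x : X)
    (h2 : ∃ y, y ∉ p ++ [x]) : BW (alive F (p ++ [x, strat F (p ++ [x])])) := by
  have : p ++ [x, strat F (p ++ [x])] = (p ++ [x]) ++ [strat F (p ++ [x])] := by simp
  rw [this]
  apply strat_BW
  obtain ⟨y', hy', hb'⟩ := (safe_BW _ hb).2 x
  have main : ∀ y, (∀ e ∈ F, (∀ c ∈ e, c ∉ Br p) → y ∉ e → y' ∉ e \ Mk p) →
      BW (alive F (p ++ [x, y])) := by
    intro y hy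
    refine hb'.mono ?_
    rintro s ⟨e, he, hbr, rfl⟩
    rw [Br_append2 hp] at hbr
    rw [Mk_append2 hp]
    refine ⟨(e \ Mk p) \ {x}, ⟨e \ Mk p, ⟨e, he, fun c hc h => hbr c hc (Or.inl h), rfl⟩,
      hy e he (fun c hc h => hbr c hc (Or.inl h)) (fun h => hbr y h (Or.inr rfl)), rfl⟩, ?_⟩
    rintro a ⟨⟨h1, h2⟩, h3⟩
    exact ⟨h1, fun h => h.elim h2 h3⟩
  by_cases hm : y' ∈ p ++ [x]
  · obtain ⟨y, hy⟩ := h2
    refine ⟨y, hy, ?_⟩
    rw [List.append_assoc]
    refine main y ?_
    intro e he hbr _ hye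
    have hp' : y' ∈ p := by
      rcases List.mem_append.1 hm with h | h
      · exact h
      · exact absurd (by simpa using h) hy'
    rcases Mk_or_Br hp' with h | h
    · exact hye.2 h
    · exact hbr y' hye.1 h
  · refine ⟨y', hm, ?_⟩
    rw [List.append_assoc]
    exact main y' fun e he _ hye h => hye h.1

theorem inv [Nonempty X] (hF : BW F) {l : List X} (hl : l.Nodup)
    (hs : ∀ k : ℕ, Odd k → ∀ c : X, l[k]? = some c → c = strat F (l.take k)) :
    ∀ j, 2 * j ≤ l.length → BW (alive F (l.take (2 * j))) := by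
  intro j
  induction j with
  | zero =>
    intro _
    refine hF.mono ?_
    rintro s ⟨e, he, _, rfl⟩
    refine ⟨e, he, ?_⟩
    intro a ha
    refine ⟨ha, ?_⟩
    rintro ⟨m, _, hm⟩
    simp at hm
  | succ j ih =>
    intro hj
    have h1 : 2 * j < l.length := by omega
    have h2 : 2 * j + 1 < l.length := by omega
    have hbw := ih (by omega)
    have hlen : (l.take (2 * j)).length = 2 * j := by
      rw [List.length_take]; omega
    have ht1 : l.take (2 * j + 1) = l.take (2 * j) ++ [l[2 * j]] := by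
      rw [List.take_append_getElem h1]
    have ht2 : l.take (2 * j + 2) = l.take (2 * j + 1) ++ [l[2 * j + 1]] := by
      rw [List.take_append_getElem h2]
    have hy : l[2 * j + 1] = strat F (l.take (2 * j) ++ [l[2 * j]]) := by
      rw [← ht1]
      exact hs (2 * j + 1) ⟨j, rfl⟩ _ (List.getElem?_eq_getElem h2)
    have hnot : l[2 * j + 1] ∉ l.take (2 * j) ++ [l[2 * j]] := by
      rw [← ht1]
      intro hmem
      have hnd : (l.take (2 * j + 2)).Nodup := hl.sublist (List.take_sublist _ _)
      rw [ht2, List.nodup_append] at hnd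
      exact hnd.2.2 _ hmem _ (by simp) rfl
    have := step F (by rw [hlen]; exact even_two_mul j) hbw l[2 * j] ⟨_, hnot⟩
    rw [← hy] at this
    have e : l.take (2 * (j + 1)) = l.take (2 * j) ++ [l[2 * j], l[2 * j + 1]] := by
      have : 2 * (j + 1) = 2 * j + 2 := by ring
      rw [this, ht2, ht1, List.append_assoc]
      rfl
    rw [e]
    exact this

theorem no_win [Nonempty X] (hF : BW F) {l : List X} (hl : l.Nodup)
    (hs : ∀ k : ℕ, Odd k → ∀ c : X, l[k]? = some c → c = strat F (l.take k))
    {e : Set X} (he : e ∈ F) : ¬ (e ⊆ Mk l) := by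
  intro hsub
  rcases Nat.even_or_odd' l.length with ⟨j, hj | hj⟩
  · have h := inv F hF hl hs j (by omega)
    rw [List.take_of_length_le (by omega)] at h
    apply (safe_BW _ h).1
    refine ⟨e, he, fun c hc => not_both hl (hsub hc), ?_⟩
    ext a
    simp only [mem_empty_iff_false, mem_sdiff, false_iff, not_and, not_not]
    exact fun ha => hsub ha
  · have h := inv F hF hl hs j (by omega)
    have h1 : 2 * j < l.length := by omega
    have ht1 : l = l.take (2 * j) ++ [l[2 * j]] := by
      rw [List.take_append_getElem h1, List.take_of_length_le (by omega)]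
    set p := l.take (2 * j) with hp
    set x := l[2 * j] with hx
    obtain ⟨y, hy, hb⟩ := (safe_BW _ h).2 x
    apply (safe_BW _ hb).1
    have hse : e \ Mk p ⊆ {x} := by
      rintro a ⟨ha, hna⟩
      have := hsub ha
      rw [ht1] at this
      rcases Mk_append1 x this with h | h
      · exact absurd h hna
      · exact h
    refine ⟨e \ Mk p, ⟨e, he, ?_, rfl⟩, fun hye => hy (hse hye), ?_⟩
    · intro c hc hbr
      have hcl := hsub hc
      refine not_both hl hcl ?_
      obtain ⟨m, hm, hmc⟩ := hbr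
      refine ⟨m, hm, ?_⟩
      rw [ht1]
      obtain ⟨h1, _⟩ := List.getElem?_eq_some_iff.1 hmc
      rw [List.getElem?_append_left h1, hmc]
    · symm
      rw [sdiff_eq_empty]
      exact hse

end Strategy

/-- set of cells coded by a number: cell `i` is bit `i + 16`; the low 16 bits are a free tag -/
def bits (e : ℕ) : Set ℕ := {i | e.testBit (i + 16) = true}

/-- family coded by a list of numbers -/
def fam (L : List ℕ) : Set (Set ℕ) := {s | ∃ e ∈ L, s = bits e}

/-- the number of a single cell -/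
def one (x : ℕ) : ℕ := Nat.shiftLeft 1 (Nat.add x 16)

/-- union -/
def sup (L : List ℕ) : ℕ := List.rec (motive := fun _ => ℕ) 0 (fun e _ ih => Nat.lor e ih) L

/-- clear the bits of `m` -/
def clr (e m : ℕ) : ℕ := Nat.xor e (Nat.land e m)

/-- numbers after Maker takes `mx` and Breaker takes `my` -/
def rep (mx my : ℕ) (L : List ℕ) : List ℕ :=
  List.rec (motive := fun _ => List ℕ) []
    (fun e _ ih => cond (Nat.beq (Nat.land e my) 0) (Nat.xor e (Nat.land e mx) :: ih) ih) L

/-- is some member of `K` inside `e`? -/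
def anySub (K : List ℕ) (e : ℕ) : Bool :=
  List.rec (motive := fun _ => Bool) false
    (fun k _ ih => cond (Nat.ble (Nat.xor k (Nat.land k e)) 65535) true ih) K

/-- keep lines containing no member of `K`, with cells `m` removed -/
def strip (K : List ℕ) (m : ℕ) (L : List ℕ) : List ℕ :=
  List.rec (motive := fun _ => List ℕ) []
    (fun e _ ih => cond (anySub K e) ih (Nat.xor e (Nat.land e m) :: ih)) L

/-- no coded set is empty -/
def nz (L : List ℕ) : Bool :=
  List.rec (motive := fun _ => Bool) true (fun e _ ih => cond (Nat.ble e 65535) false ih) L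

/-- the list is empty -/
def isNil (L : List ℕ) : Bool :=
  List.rec (motive := fun _ => Bool) true (fun _ _ _ => false) L

/-- certificates -/
inductive Cert : Type
  | nil : Cert
  | node (x y : ℕ) (c rest : Cert) : Cert
  | pair (a b : ℕ) (rest : Cert) : Cert
  | peel (K : List ℕ) (c rest : Cert) : Cert

/-- the checker; the first argument is `true` for the whole family, `false` for the moves `t` -/
noncomputable def chk (c : Cert) : Bool → List ℕ → ℕ → Bool :=
  Cert.rec (motive := fun _ => Bool → List ℕ → ℕ → Bool)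
    (fun mode H t => cond mode (isNil H) (Nat.ble t 65535))
    (fun x y _ _ ihc ihr mode H t =>
      cond (Nat.beq x y) false
        (cond (cond mode (nz H) true)
          (cond (ihc true (rep (one x) (one y) H) 0)
            (ihr false H (clr (cond mode (sup H) t) (one x))) false) false))
    (fun a b _ ihr _ H _ =>
      cond (Nat.beq a b) false
        (ihr true (strip [Nat.lor (one a) (one b)] (Nat.lor (one a) (one b)) H) 0))
    (fun K _ _ ihc ihr _ H _ =>
      cond (ihc true K 0) (ihr true (strip K (sup K) H) 0) false)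
    c

theorem testBit_clr (e m i : ℕ) : (clr e m).testBit i = (e.testBit i && !m.testBit i) := by
  have : clr e m = e ^^^ (e &&& m) := rfl
  rw [this, Nat.testBit_xor, Nat.testBit_and]
  cases e.testBit i <;> cases m.testBit i <;> rfl

theorem testBit_one (x i : ℕ) : (one x).testBit i = decide (x + 16 = i) := by
  have : one x = 1 <<< (x + 16) := rfl
  rw [this, Nat.one_shiftLeft, Nat.testBit_two_pow]

theorem bits_clr (e m : ℕ) : bits (clr e m) = bits e \ bits m := by
  ext i
  simp only [bits, mem_ofPred_eq, mem_sdiff, testBit_clr, Bool.and_eq_true, Bool.not_eq_true',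
    Bool.not_eq_true]

theorem bits_one (x : ℕ) : bits (one x) = {x} := by
  ext i
  simp only [bits, mem_ofPred_eq, testBit_one, decide_eq_true_eq, mem_singleton_iff]
  omega

theorem bits_or (a b : ℕ) : bits (Nat.lor a b) = bits a ∪ bits b := by
  ext i
  have : Nat.lor a b = a ||| b := rfl
  simp only [bits, mem_ofPred_eq, this, Nat.testBit_or, Bool.or_eq_true, mem_union]

theorem bits_zero : bits 0 = ∅ := by
  ext i
  simp [bits]

theorem bits_of_small {e : ℕ} (h : Nat.ble e 65535 = true) : bits e = ∅ := by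
  have h1 : e ≤ 65535 := Nat.le_of_ble_eq_true h
  ext i
  simp only [bits, mem_ofPred_eq, mem_empty_iff_false, iff_false, Bool.not_eq_true]
  apply Nat.testBit_eq_false_of_lt
  calc e < 2 ^ 16 := by omega
    _ ≤ 2 ^ (i + 16) := Nat.pow_le_pow_right (by norm_num) (by omega)

theorem bits_ne_empty {e : ℕ} (h : Nat.ble e 65535 = false) : bits e ≠ ∅ := by
  intro hb
  have h1 : ¬ e ≤ 65535 := by
    intro hle
    have := Nat.ble_eq_true_of_le hle
    rw [this] at h
    exact absurd h (by simp)
  have h2 : e >>> 16 = 0 := by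
    apply Nat.eq_of_testBit_eq
    intro i
    rw [Nat.zero_testBit, Nat.testBit_shiftRight, Nat.add_comm]
    by_contra hi
    have : i ∈ bits e := by simpa [bits] using hi
    rw [hb] at this
    exact this
  rw [Nat.shiftRight_eq_div_pow] at h2
  have := Nat.lt_of_div_eq_zero (by norm_num) h2
  omega

theorem not_mem_bits {e y : ℕ} (h : Nat.beq (Nat.land e (one y)) 0 = true) : y ∉ bits e := by
  intro hy
  have h0 : e &&& one y = 0 := Nat.eq_of_beq_eq_true h
  have := congrArg (fun z => Nat.testBit z (y + 16)) h0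
  simp only [Nat.testBit_and, testBit_one, Nat.zero_testBit] at this
  simp only [bits, mem_ofPred_eq] at hy
  rw [hy] at this
  simp at this

theorem mem_bits_of {e y : ℕ} (h : Nat.beq (Nat.land e (one y)) 0 = false) : y ∈ bits e := by
  by_contra hy
  have h0 : e &&& one y = 0 := by
    apply Nat.eq_of_testBit_eq
    intro i
    simp only [Nat.testBit_and, testBit_one, Nat.zero_testBit]
    simp only [bits, mem_ofPred_eq, Bool.not_eq_true] at hy
    by_cases hi : y + 16 = i
    · subst hi; simp [hy]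
    · simp [hi]
  have h1 : Nat.land e (one y) = 0 := h0
  rw [h1] at h
  exact absurd h (by simp [Nat.beq])

theorem bits_subset_of {k e : ℕ} (h : Nat.ble (Nat.xor k (Nat.land k e)) 65535 = true) :
    bits k ⊆ bits e := by
  have h1 : bits (clr k e) = ∅ := bits_of_small h
  rw [bits_clr, sdiff_eq_empty] at h1
  exact h1

theorem fam_cons (e : ℕ) (L : List ℕ) : fam (e :: L) = {bits e} ∪ fam L := by
  ext s
  simp [fam, eq_comm]

theorem fam_nil : fam [] = ∅ := by
  ext s
  simp [fam]

theorem sup_cons (e : ℕ) (L : List ℕ) : sup (e :: L) = Nat.lor e (sup L) := rfl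

theorem sUnion_fam (L : List ℕ) : ⋃₀ fam L = bits (sup L) := by
  induction L with
  | nil =>
    have : sup [] = 0 := rfl
    simp [fam_nil, this, bits_zero]
  | cons e L ih => rw [fam_cons, sUnion_union, sUnion_singleton, ih, sup_cons, bits_or]

theorem nz_cons (e : ℕ) (L : List ℕ) : nz (e :: L) = cond (Nat.ble e 65535) false (nz L) := rfl

theorem nz_spec {L : List ℕ} (h : nz L = true) : (∅ : Set ℕ) ∉ fam L := by
  induction L with
  | nil => simp [fam_nil]
  | cons e L ih =>
    rw [nz_cons] at h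
    cases hb : Nat.ble e 65535 with
    | true => rw [hb] at h; exact absurd h (by simp)
    | false =>
      rw [hb] at h
      rw [fam_cons]
      rintro (h0 | h0)
      · rw [mem_singleton_iff] at h0
        exact bits_ne_empty hb h0.symm
      · exact ih h h0

theorem reply_union {X : Type*} (A B : Set (Set X)) (x y : X) :
    reply (A ∪ B) x y = reply A x y ∪ reply B x y := by
  ext s
  simp only [reply, mem_union, mem_ofPred_eq]
  constructor
  · rintro ⟨e, (he | he), h1, h2⟩
    · exact Or.inl ⟨e, he, h1, h2⟩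
    · exact Or.inr ⟨e, he, h1, h2⟩
  · rintro (⟨e, he, h1, h2⟩ | ⟨e, he, h1, h2⟩)
    · exact ⟨e, Or.inl he, h1, h2⟩
    · exact ⟨e, Or.inr he, h1, h2⟩

theorem rep_cons (mx my e : ℕ) (L : List ℕ) : rep mx my (e :: L) =
    cond (Nat.beq (Nat.land e my) 0) (clr e mx :: rep mx my L) (rep mx my L) := rfl

theorem rep_spec (x y : ℕ) (L : List ℕ) : fam (rep (one x) (one y) L) = reply (fam L) x y := by
  induction L with
  | nil =>
    have : rep (one x) (one y) [] = [] := rfl
    simp [fam_nil, this, reply]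
  | cons e L ih =>
    rw [fam_cons, reply_union, ← ih, rep_cons]
    cases h : Nat.beq (Nat.land e (one y)) 0 with
    | true =>
      rw [cond_true, fam_cons]
      congr 1
      ext s
      simp only [reply, mem_singleton_iff, mem_ofPred_eq]
      constructor
      · rintro rfl
        exact ⟨_, rfl, not_mem_bits h, by rw [bits_clr, bits_one]⟩
      · rintro ⟨_, rfl, _, rfl⟩
        rw [bits_clr, bits_one]
    | false =>
      have : reply {bits e} x y = ∅ := by
        ext s
        simp only [reply, mem_singleton_iff, mem_ofPred_eq, mem_empty_iff_false, iff_false]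
        rintro ⟨_, rfl, h1, _⟩
        exact h1 (mem_bits_of h)
      rw [this, empty_union, cond_false]

theorem anySub_cons (k : ℕ) (K : List ℕ) (e : ℕ) : anySub (k :: K) e =
    cond (Nat.ble (Nat.xor k (Nat.land k e)) 65535) true (anySub K e) := rfl

theorem anySub_spec {K : List ℕ} {e : ℕ} (h : anySub K e = true) : ∃ g ∈ K, bits g ⊆ bits e := by
  induction K with
  | nil =>
    have : anySub [] e = false := rfl
    rw [this] at h
    exact absurd h (by simp)
  | cons k K ih =>
    rw [anySub_cons] at h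
    cases hb : Nat.ble (Nat.xor k (Nat.land k e)) 65535 with
    | true => exact ⟨k, by simp, bits_subset_of hb⟩
    | false =>
      rw [hb] at h
      obtain ⟨g, hg, hge⟩ := ih h
      exact ⟨g, by simp [hg], hge⟩

theorem strip_cons (K : List ℕ) (m e : ℕ) (L : List ℕ) : strip K m (e :: L) =
    cond (anySub K e) (strip K m L) (clr e m :: strip K m L) := rfl

theorem strip_spec (K : List ℕ) (m : ℕ) (L : List ℕ) :
    Ref (fam K ∪ fam (strip K m L)) (fam L) := by
  induction L with
  | nil => intro k hk; simp [fam_nil] at hk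
  | cons e L ih =>
    intro k hk
    rw [fam_cons] at hk
    rw [strip_cons]
    rcases hk with hk | hk
    · rw [mem_singleton_iff] at hk
      subst hk
      cases h : anySub K e with
      | true =>
        obtain ⟨g, hg, hge⟩ := anySub_spec h
        exact ⟨bits g, Or.inl ⟨g, hg, rfl⟩, hge⟩
      | false =>
        refine ⟨bits (clr e m), Or.inr ?_, ?_⟩
        · rw [cond_false, fam_cons]; exact Or.inl rfl
        · rw [bits_clr]; exact sdiff_subset
    · obtain ⟨h, hh, hhk⟩ := ih k hk
      refine ⟨h, ?_, hhk⟩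
      rcases hh with hh | hh
      · exact Or.inl hh
      · cases anySub K e with
        | true => exact Or.inr hh
        | false => rw [cond_false, fam_cons]; exact Or.inr (Or.inr hh)

theorem strip_disj (K : List ℕ) (m : ℕ) (L : List ℕ) {a : ℕ} (ha : a ∈ bits m) :
    a ∉ ⋃₀ fam (strip K m L) := by
  induction L with
  | nil =>
    have : strip K m [] = [] := rfl
    simp [this, fam_nil]
  | cons e L ih =>
    rw [strip_cons]
    cases anySub K e with
    | true => exact ih
    | false =>
      rw [cond_false, fam_cons, sUnion_union, sUnion_singleton]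
      rintro (h | h)
      · rw [bits_clr] at h; exact h.2 ha
      · exact ih h

theorem BW_pair {a b : ℕ} (hab : a ≠ b) : BW (fam [Nat.lor (one a) (one b)]) := by
  have hf : fam [Nat.lor (one a) (one b)] = {{a, b}} := by
    rw [fam_cons, fam_nil, union_empty, bits_or, bits_one, bits_one]
    rfl
  rw [hf]
  apply BW.node
  · intro h
    rw [mem_singleton_iff] at h
    have : a ∈ (∅ : Set ℕ) := by rw [h]; exact Or.inl rfl
    exact this
  · intro x hx
    rw [sUnion_singleton] at hx
    rcases hx with rfl | hx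
    · refine ⟨b, hab.symm, BW.empty.mono ?_⟩
      rintro s ⟨e, he, hb, _⟩
      rw [mem_singleton_iff] at he
      subst he
      exact absurd (Or.inr rfl) hb
    · rw [mem_singleton_iff] at hx
      subst hx
      refine ⟨a, hab, BW.empty.mono ?_⟩
      rintro s ⟨e, he, hb, _⟩
      rw [mem_singleton_iff] at he
      subst he
      exact absurd (Or.inl rfl) hb

theorem BW_of_todo {H : List ℕ} (hn : nz H = true)
    (h : ∀ x ∈ bits (sup H), ∃ y, y ≠ x ∧ BW (reply (fam H) x y)) : BW (fam H) := by
  apply BW.node (nz_spec hn)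
  intro x hx
  rw [sUnion_fam] at hx
  exact h x hx

theorem cond_eq_true {a b c : Bool} (h : cond a b c = true) :
    (a = true ∧ b = true) ∨ (a = false ∧ c = true) := by
  cases a
  · exact Or.inr ⟨rfl, h⟩
  · exact Or.inl ⟨rfl, h⟩

theorem chk_node (x y : ℕ) (c rest : Cert) (mode : Bool) (H : List ℕ) (t : ℕ) :
    chk (.node x y c rest) mode H t = cond (Nat.beq x y) false
        (cond (cond mode (nz H) true)
          (cond (chk c true (rep (one x) (one y) H) 0)
            (chk rest false H (clr (cond mode (sup H) t) (one x))) false) false) := rfl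

theorem chk_pair (a b : ℕ) (rest : Cert) (mode : Bool) (H : List ℕ) (t : ℕ) :
    chk (.pair a b rest) mode H t = cond (Nat.beq a b) false
        (chk rest true (strip [Nat.lor (one a) (one b)] (Nat.lor (one a) (one b)) H) 0) := rfl

theorem chk_peel (K : List ℕ) (c rest : Cert) (mode : Bool) (H : List ℕ) (t : ℕ) :
    chk (.peel K c rest) mode H t =
      cond (chk c true K 0) (chk rest true (strip K (sup K) H) 0) false := rfl

theorem beq_false {a b : ℕ} (h : Nat.beq a b = false) : a ≠ b := by
  rintro rfl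
  rw [Nat.beq_refl] at h
  exact absurd h (by simp)

theorem chk_sound (c : Cert) : (∀ (H : List ℕ) (t : ℕ), chk c true H t = true → BW (fam H)) ∧
    (∀ (H : List ℕ) (t : ℕ), chk c false H t = true →
      ∀ x ∈ bits t, ∃ y, y ≠ x ∧ BW (reply (fam H) x y)) := by
  induction c with
  | nil =>
    constructor
    · intro H t h
      have h' : isNil H = true := h
      cases H with
      | nil => rw [fam_nil]; exact BW.empty
      | cons e L =>
        have : isNil (e :: L) = false := rfl
        rw [this] at h'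
        exact absurd h' (by simp)
    · intro H t h x hx
      have h' : Nat.ble t 65535 = true := h
      rw [bits_of_small h'] at hx
      exact absurd hx (by simp)
  | node x y c rest ihc ihr =>
    have key : ∀ (mode : Bool) (H : List ℕ) (t : ℕ), chk (.node x y c rest) mode H t = true →
        (mode = true → nz H = true) ∧
        ∀ z ∈ bits (cond mode (sup H) t), ∃ y, y ≠ z ∧ BW (reply (fam H) z y) := by
      intro mode H t h
      rw [chk_node] at h
      rcases cond_eq_true h with ⟨_, h1⟩ | ⟨hxy, h1⟩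
      · exact absurd h1 (by simp)
      rcases cond_eq_true h1 with ⟨hm, h2⟩ | ⟨_, h2⟩
      swap
      · exact absurd h2 (by simp)
      rcases cond_eq_true h2 with ⟨hc, h3⟩ | ⟨_, h3⟩
      swap
      · exact absurd h3 (by simp)
      constructor
      · rintro rfl
        exact hm
      · intro z hz
        by_cases hzx : z = x
        · subst hzx
          refine ⟨y, (beq_false hxy).symm, ?_⟩
          rw [← rep_spec]
          exact ihc.1 _ _ hc
        · apply ihr.2 H _ h3 z
          rw [bits_clr, bits_one]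
          exact ⟨hz, hzx⟩
    constructor
    · intro H t h
      obtain ⟨h1, h2⟩ := key true H t h
      exact BW_of_todo (h1 rfl) h2
    · intro H t h
      exact (key false H t h).2
  | pair a b rest ih =>
    have key : ∀ (mode : Bool) (H : List ℕ) (t : ℕ), chk (.pair a b rest) mode H t = true →
        BW (fam H) := by
      intro mode H t h
      rw [chk_pair] at h
      rcases cond_eq_true h with ⟨_, h1⟩ | ⟨hab, h1⟩
      · exact absurd h1 (by simp)
      refine BW.mono (BW.union (BW_pair (beq_false hab)) (ih.1 _ _ h1) ?_) (strip_spec _ _ _)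
      intro u hu
      rw [sUnion_fam, sup_cons] at hu
      have h0 : sup [] = 0 := rfl
      rw [h0, bits_or, bits_zero, union_empty] at hu
      exact strip_disj _ _ _ hu
    exact ⟨fun H t h => key true H t h, fun H t h x _ => (safe_BW _ (key false H t h)).2 x⟩
  | peel K c rest ihc ihr =>
    have key : ∀ (mode : Bool) (H : List ℕ) (t : ℕ), chk (.peel K c rest) mode H t = true →
        BW (fam H) := by
      intro mode H t h
      rw [chk_peel] at h
      rcases cond_eq_true h with ⟨hc, h1⟩ | ⟨_, h1⟩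
      swap
      · exact absurd h1 (by simp)
      refine BW.mono (BW.union (ihc.1 _ _ hc) (ihr.1 _ _ h1) ?_) (strip_spec _ _ _)
      intro u hu
      rw [sUnion_fam] at hu
      exact strip_disj _ _ _ hu
    exact ⟨fun H t h => key true H t h, fun H t h x _ => (safe_BW _ (key false H t h)).2 x⟩

theorem BW_of_chk {c : Cert} {H : List ℕ} (h : chk c true H 0 = true) : BW (fam H) :=
  (chk_sound c).1 H 0 h

/-- coordinate of the `i`-th cell of a line with symbol `s`: constant, forward or backward -/
def coord (n s i : ℕ) : ℕ := cond (Nat.ble n s) (cond (Nat.beq s n) i (n - 1 - i)) s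

def code (n a b c : ℕ) : ℕ := Nat.add (Nat.mul (Nat.add (Nat.mul a n) b) n) c

def lineMask (n s0 s1 s2 m : ℕ) : ℕ :=
  Nat.rec (motive := fun _ => ℕ) 0
    (fun i ih => Nat.lor (one (code n (coord n s0 i) (coord n s1 i) (coord n s2 i))) ih) m

theorem mem_lineMask {n s0 s1 s2 m b : ℕ} (h : b ∈ bits (lineMask n s0 s1 s2 m)) :
    ∃ i < m, b = code n (coord n s0 i) (coord n s1 i) (coord n s2 i) := by
  induction m with
  | zero =>
    have : lineMask n s0 s1 s2 0 = 0 := rfl
    rw [this, bits_zero] at h; exact absurd h (by simp)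
  | succ m ih =>
    have : lineMask n s0 s1 s2 (m + 1) = Nat.lor
      (one (code n (coord n s0 m) (coord n s1 m) (coord n s2 m))) (lineMask n s0 s1 s2 m) := rfl
    rw [this, bits_or, bits_one] at h
    rcases h with h | h
    · exact ⟨m, Nat.lt_succ_self m, h⟩
    · obtain ⟨i, hi, hb⟩ := ih h
      exact ⟨i, hi.trans (Nat.lt_succ_self m), hb⟩

/-- is the cell set `m` a superset of a member of `L`? -/
def hasSub (L : List ℕ) (m : ℕ) : Bool := anySub L m

/-- for all symbols below the bound -/
def allBelow (b : ℕ) (f : ℕ → Bool) : Bool :=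
  Nat.rec (motive := fun _ => Bool) true (fun i ih => cond (f i) ih false) b

theorem allBelow_spec {b : ℕ} {f : ℕ → Bool} (h : allBelow b f = true) : ∀ i < b, f i = true := by
  induction b with
  | zero => intro i hi; omega
  | succ b ih =>
    have h' : cond (f b) (allBelow b f) false = true := h
    rcases cond_eq_true h' with ⟨h1, h2⟩ | ⟨_, h2⟩
    · intro i hi
      rcases Nat.lt_succ_iff_lt_or_eq.1 hi with h3 | rfl
      · exact ih h2 i h3
      · exact h1
    · exact absurd h2 (by simp)

/-- every line of the cube contains a member of `L` -/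
def covers (n : ℕ) (L : List ℕ) : Bool :=
  allBelow (n + 2) fun s0 => allBelow (n + 2) fun s1 => allBelow (n + 2) fun s2 =>
    cond (Nat.ble n s0) (anySub L (lineMask n s0 s1 s2 n))
      (cond (Nat.ble n s1) (anySub L (lineMask n s0 s1 s2 n))
        (cond (Nat.ble n s2) (anySub L (lineMask n s0 s1 s2 n)) true))

def enc (n : ℕ) (v : Fin 3 → Fin n) : ℕ := code n (v 0) (v 1) (v 2)

theorem enc_inj (n : ℕ) : Function.Injective (enc n) := by
  intro v w h
  have h' : ((v 0 : ℕ) * n + v 1) * n + v 2 = ((w 0 : ℕ) * n + w 1) * n + w 2 := h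
  have h2 : (v 2 : ℕ) = w 2 := by
    have := congrArg (· % n) h'
    simpa [Nat.add_mod, Nat.mul_mod_left, Nat.mod_eq_of_lt (v 2).2, Nat.mod_eq_of_lt (w 2).2]
      using this
  have hn : 0 < n := lt_of_le_of_lt (Nat.zero_le _) (v 0).2
  have h3 : (v 0 : ℕ) * n + v 1 = (w 0 : ℕ) * n + w 1 := by
    have : ((v 0 : ℕ) * n + v 1) * n = ((w 0 : ℕ) * n + w 1) * n := by omega
    exact Nat.eq_of_mul_eq_mul_right hn this
  have h1 : (v 1 : ℕ) = w 1 := by
    have := congrArg (· % n) h3
    simpa [Nat.add_mod, Nat.mul_mod_left, Nat.mod_eq_of_lt (v 1).2, Nat.mod_eq_of_lt (w 1).2]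
      using this
  have h0 : (v 0 : ℕ) = w 0 := by
    have : (v 0 : ℕ) * n = (w 0 : ℕ) * n := by omega
    exact Nat.eq_of_mul_eq_mul_right hn this
  funext j
  apply Fin.ext
  fin_cases j
  · exact h0
  · exact h1
  · exact h2

/-- the winning lines of the `n`-cube -/
def cubeLines (n : ℕ) : Set (Set (Fin 3 → Fin n)) :=
  {s | ∃ a : Fin 3 → Fin n, ∃ t : Fin 3 → Fin 3, (∃ j, t j ≠ 0) ∧
    s = {v | ∃ i : Fin n, v = fun j => if t j = 0 then a j else if t j = 1 then i else Fin.rev i}}

theorem ble_false {a b : ℕ} (h : b < a) : Nat.ble a b = false := by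
  cases hb : Nat.ble a b with
  | false => rfl
  | true => exact absurd (Nat.le_of_ble_eq_true hb) (by omega)

theorem coord_eq (n s i : ℕ) : coord n s i = if s < n then s else if s = n then i else n - 1 - i := by
  unfold coord
  by_cases h : s < n
  · rw [if_pos h, ble_false h, cond_false]
  · rw [if_neg h, Nat.ble_eq_true_of_le (by omega : n ≤ s), cond_true]
    by_cases h2 : s = n
    · rw [if_pos h2, h2, Nat.beq_refl, cond_true]
    · rw [if_neg h2]
      cases hb : Nat.beq s n with
      | false => rfl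
      | true => exact absurd (Nat.eq_of_beq_eq_true hb) h2

theorem covers_spec {n : ℕ} {L : List ℕ} (hc : covers n L = true) :
    ∀ s ∈ cubeLines n, ∃ k ∈ fam L, k ⊆ enc n '' s := by
  rintro s ⟨a, t, ⟨j0, hj0⟩, rfl⟩
  set sy : Fin 3 → ℕ := fun j => if t j = 0 then (a j : ℕ) else if t j = 1 then n else n + 1 with hsy
  have hlt : ∀ j, sy j < n + 2 := by
    intro j
    have := (a j).2
    simp only [hsy]
    split_ifs <;> omega
  have hge : n ≤ sy j0 := by
    simp only [hsy, if_neg hj0]
    split_ifs <;> omega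
  have h1 := allBelow_spec (allBelow_spec (allBelow_spec hc (sy 0) (hlt 0)) (sy 1) (hlt 1))
    (sy 2) (hlt 2)
  have h2 : anySub L (lineMask n (sy 0) (sy 1) (sy 2) n) = true := by
    rcases cond_eq_true h1 with ⟨_, h⟩ | ⟨e0, h⟩
    · exact h
    rcases cond_eq_true h with ⟨_, h⟩ | ⟨e1, h⟩
    · exact h
    rcases cond_eq_true h with ⟨_, h⟩ | ⟨e2, h⟩
    · exact h
    exfalso
    have hge' := Nat.ble_eq_true_of_le hge
    fin_cases j0
    · exact absurd (hge'.symm.trans e0) (by simp)
    · exact absurd (hge'.symm.trans e1) (by simp)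
    · exact absurd (hge'.symm.trans e2) (by simp)
  obtain ⟨e, he, hsub⟩ := anySub_spec h2
  refine ⟨bits e, ⟨e, he, rfl⟩, ?_⟩
  intro b hb
  obtain ⟨i, hi, hbi⟩ := mem_lineMask (hsub hb)
  refine ⟨fun j => if t j = 0 then a j else if t j = 1 then ⟨i, hi⟩ else Fin.rev ⟨i, hi⟩,
    ⟨⟨i, hi⟩, rfl⟩, ?_⟩
  rw [hbi]
  have hco : ∀ j, ((if t j = 0 then a j else if t j = 1 then (⟨i, hi⟩ : Fin n)
      else Fin.rev ⟨i, hi⟩ : Fin n) : ℕ) = coord n (sy j) i := by
    intro j
    have := (a j).2
    rw [coord_eq]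
    simp only [hsy]
    split_ifs <;> first | rfl | omega | (simp [Fin.val_rev]; omega)
  unfold enc
  rw [hco 0, hco 1, hco 2]

theorem BW_cube {n : ℕ} [Nontrivial (Fin 3 → Fin n)] {L : List ℕ}
    (hc : covers n L = true) (hL : BW (fam L)) : BW (cubeLines n) :=
  hL.pull (enc n) (enc_inj n) (covers_spec hc)

/-- the drawing statement for the `n`-cube -/
theorem draw_of_BW {n : ℕ} [NeZero n] (hL : BW (cubeLines n)) :
    ∃ σ : List (Fin 3 → Fin n) → (Fin 3 → Fin n),
      ∀ l : List (Fin 3 → Fin n), l.Nodup →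
        (∀ k : ℕ, Odd k → ∀ c : Fin 3 → Fin n, l[k]? = some c → c = σ (l.take k)) →
        ((Odd l.length → (∃ c : Fin 3 → Fin n, c ∉ l) → σ l ∉ l) ∧
         ¬ ∃ a : Fin 3 → Fin n, ∃ t : Fin 3 → Fin 3, (∃ j, t j ≠ 0) ∧
             ∀ i : Fin n, ∃ m : ℕ, Even m ∧
               l[m]? = some (fun j => if t j = 0 then a j else if t j = 1 then i else Fin.rev i)) := by
  refine ⟨strat (cubeLines n), fun l hl hs => ⟨fun _ h => strat_not_mem _ h, ?_⟩⟩
  rintro ⟨a, t, ht, hw⟩
  refine no_win (cubeLines n) hL hl hs ⟨a, t, ht, rfl⟩ ?_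
  rintro v ⟨i, rfl⟩
  exact hw i

end Pool.Agent.Helper582.Cube
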