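import Mathlib

set_option autoImplicit false

namespace Pool.Agent.Helper582.Pairing

/-- `IsGeomLine n d L` says that the set `L` of points of the board `[n]^d` (points are functions
`Fin d → Fin n`) is a geometric line: it consists of the points `x 0, ..., x (n-1)`, where in each
coordinate `j` the sequence `i ↦ x i j` is constant, or equal to `i`, or equal to the reversal of
`i` (that is `n + 1 - i` for the values `1, ..., n`), and at least one coordinate is not
constant. -/
def IsGeomLine (n d : ℕ) (L : Finset (Fin d → Fin n)) : Prop :=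
  ∃ x : Fin n → (Fin d → Fin n),
    (∀ j, (∃ c, ∀ i, x i j = c) ∨ (∀ i, x i j = i) ∨ (∀ i, x i j = Fin.rev i)) ∧
    (∃ j, ¬ ∃ c, ∀ i, x i j = c) ∧
    L = Finset.univ.image x

/-- `numLines n d` is the number of geometric lines of `[n]^d`. -/
noncomputable def numLines (n d : ℕ) : ℕ :=
  Set.ncard {L : Finset (Fin d → Fin n) | IsGeomLine n d L}

/-- A pairing draw: a family of pairwise disjoint 2-element sets of points such that every
geometric line contains one of them. -/
def HasPairingDraw (n d : ℕ) : Prop :=
  ∃ P : Finset (Finset (Fin d → Fin n)),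
    (∀ p ∈ P, p.card = 2) ∧
    (∀ p ∈ P, ∀ q ∈ P, p ≠ q → Disjoint p q) ∧
    ∀ L, IsGeomLine n d L → ∃ p ∈ P, p ⊆ L

open Finset

variable {n d : ℕ}

def ev (w : Fin d → Fin n ⊕ Bool) (t : Fin n) : Fin d → Fin n :=
  fun j => match w j with
    | Sum.inl c => c
    | Sum.inr true => t
    | Sum.inr false => Fin.rev t

def hits (x : Fin d → Fin n) (t : Fin n) : ℕ :=
  (univ.filter (fun j => x j = t ∨ x j = Fin.rev t)).card

def zc (x : Fin d → Fin n) : ℕ :=
  (univ.filter (fun t : Fin n => t ≠ Fin.rev t ∧ hits x t = 0)).card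

def bc (x : Fin d → Fin n) : ℕ :=
  (univ.filter (fun t : Fin n => t ≠ Fin.rev t ∧ 2 ≤ hits x t)).card

def R (x : Fin d → Fin n) : ℚ := (bc x : ℚ) / ((zc x : ℚ) + 2)

/-- hits outside coordinate i -/
def hits' (x : Fin d → Fin n) (i : Fin d) (t : Fin n) : ℕ :=
  (univ.filter (fun j => j ≠ i ∧ (x j = t ∨ x j = Fin.rev t))).card

lemma hits_update (x : Fin d → Fin n) (i : Fin d) (v t : Fin n) :
    hits (Function.update x i v) t = hits' x i t + (if v = t ∨ v = Fin.rev t then 1 else 0) := by
  unfold hits hits'
  split_ifs with h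
  · have : (univ.filter (fun j => Function.update x i v j = t ∨ Function.update x i v j = Fin.rev t))
        = insert i (univ.filter (fun j => j ≠ i ∧ (x j = t ∨ x j = Fin.rev t))) := by
      ext j
      by_cases hj : j = i
      · subst hj; simp [h]
      · simp [hj]
    rw [this, card_insert_of_notMem (by simp)]
  · have : (univ.filter (fun j => Function.update x i v j = t ∨ Function.update x i v j = Fin.rev t))
        = (univ.filter (fun j => j ≠ i ∧ (x j = t ∨ x j = Fin.rev t))) := by
      ext j
      by_cases hj : j = i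
      · subst hj; simp [h]
      · simp [hj]
    rw [this]; rfl

def aa (x : Fin d → Fin n) (i : Fin d) : ℕ :=
  (univ.filter (fun t : Fin n => t ≠ Fin.rev t ∧ hits' x i t = 0)).card
def cc (x : Fin d → Fin n) (i : Fin d) : ℕ :=
  (univ.filter (fun t : Fin n => t ≠ Fin.rev t ∧ hits' x i t = 1)).card
def bb (x : Fin d → Fin n) (i : Fin d) : ℕ :=
  (univ.filter (fun t : Fin n => t ≠ Fin.rev t ∧ 2 ≤ hits' x i t)).card

lemma hits'_rev (x : Fin d → Fin n) (i : Fin d) (t : Fin n) :
    hits' x i (Fin.rev t) = hits' x i t := by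
  unfold hits'
  congr 1
  ext j
  simp [or_comm]

lemma hits_rev (x : Fin d → Fin n) (t : Fin n) :
    hits x (Fin.rev t) = hits x t := by
  unfold hits
  congr 1
  ext j
  simp [or_comm]

lemma rev_fix_card : (univ.filter (fun t : Fin n => t = Fin.rev t)).card ≤ 1 := by
  rw [card_le_one]
  intro a ha b hb
  simp only [mem_filter, mem_univ, true_and] at ha hb
  have h1 := congrArg Fin.val ha
  have h2 := congrArg Fin.val hb
  rw [Fin.val_rev] at h1 h2
  apply Fin.ext
  omega

lemma nonfix_card : n ≤ (univ.filter (fun t : Fin n => t ≠ Fin.rev t)).card + 1 := by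
  have h := card_filter_add_card_filter_not (s := (univ : Finset (Fin n))) (fun t : Fin n => t = Fin.rev t)
  have h2 := rev_fix_card (n := n)
  simp only [card_univ, Fintype.card_fin] at h
  simp only [ne_eq]
  omega

lemma abc_card (x : Fin d → Fin n) (i : Fin d) :
    aa x i + cc x i + bb x i = (univ.filter (fun t : Fin n => t ≠ Fin.rev t)).card := by
  unfold aa bb cc
  have e : (univ.filter (fun t : Fin n => t ≠ Fin.rev t)) =
      ((univ.filter (fun t : Fin n => t ≠ Fin.rev t ∧ hits' x i t = 0)) ∪
       (univ.filter (fun t : Fin n => t ≠ Fin.rev t ∧ hits' x i t = 1))) ∪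
      (univ.filter (fun t : Fin n => t ≠ Fin.rev t ∧ 2 ≤ hits' x i t)) := by
    ext t
    simp only [mem_filter, mem_univ, true_and, mem_union]
    constructor
    · intro h
      rcases Nat.lt_or_ge (hits' x i t) 2 with h2 | h2
      · interval_cases hh : hits' x i t
        · exact Or.inl (Or.inl ⟨h, rfl⟩)
        · exact Or.inl (Or.inr ⟨h, rfl⟩)
      · exact Or.inr ⟨h, h2⟩
    · rintro ((⟨h, _⟩ | ⟨h, _⟩) | ⟨h, _⟩) <;> exact h
  rw [e, card_union_of_disjoint, card_union_of_disjoint]
  · rw [disjoint_filter]; intro t _ h1 h2; omega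
  · rw [disjoint_union_left]
    constructor
    · rw [disjoint_filter]; intro t _ h1 h2; omega
    · rw [disjoint_filter]; intro t _ h1 h2; omega

lemma sum_hits' (x : Fin d → Fin n) (i : Fin d) :
    ∑ t : Fin n, hits' x i t ≤ 2 * (d - 1) := by
  unfold hits'
  simp only [card_filter]
  rw [sum_comm]
  have key : ∀ j : Fin d, (∑ t : Fin n, if j ≠ i ∧ (x j = t ∨ x j = Fin.rev t) then 1 else 0)
      ≤ if j ≠ i then 2 else 0 := by
    intro j
    by_cases hj : j = i
    · simp [hj]
    · simp only [ne_eq, hj, not_false_eq_true, true_and, if_true]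
      rw [← card_filter]
      have : (univ.filter (fun t : Fin n => x j = t ∨ x j = Fin.rev t)) ⊆ {x j, Fin.rev (x j)} := by
        intro t
        simp only [mem_filter, mem_univ, true_and, mem_insert, mem_singleton]
        rintro (h | h)
        · exact Or.inl h.symm
        · right; rw [h, Fin.rev_rev]
      exact (card_le_card this).trans card_le_two
  refine (sum_le_sum (fun j _ => key j)).trans ?_
  rw [← sum_filter]
  simp only [sum_const, smul_eq_mul]
  have : (univ.filter (fun j : Fin d => j ≠ i)).card = d - 1 := by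
    rw [filter_ne' univ i, card_erase_of_mem (mem_univ i)]; simp
  rw [this]; omega

lemma cb_le (x : Fin d → Fin n) (i : Fin d) :
    cc x i + 2 * bb x i ≤ 2 * (d - 1) := by
  refine le_trans ?_ (sum_hits' x i)
  unfold cc bb
  rw [card_filter, card_filter, mul_sum, ← sum_add_distrib]
  apply sum_le_sum
  intro t _
  split_ifs with h1 h2 h2 <;> omega

lemma bb_le_aa (hn : 2 * d ≤ n) (x : Fin d → Fin n) (i : Fin d) : bb x i ≤ aa x i := by
  have h1 := abc_card x i
  have h2 := nonfix_card (n := n)
  have h3 := cb_le x i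
  have hd : 0 < d := i.pos
  omega

/-- value of R after updating coordinate i -/
def rr (x : Fin d → Fin n) (i : Fin d) (v : Fin n) : ℚ :=
  if v ≠ Fin.rev v ∧ hits' x i v = 0 then (bb x i : ℚ) / (aa x i : ℚ)
  else if v ≠ Fin.rev v ∧ hits' x i v = 1 then ((bb x i : ℚ) + 2) / ((aa x i : ℚ) + 2)
  else (bb x i : ℚ) / ((aa x i : ℚ) + 2)

lemma R_update (x : Fin d → Fin n) (i : Fin d) (v : Fin n) :
    R (Function.update x i v) = rr x i v := by
  unfold R rr
  by_cases hv : v = Fin.rev v
  · -- centre
    rw [if_neg (by tauto), if_neg (by tauto)]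
    have hne : ∀ t : Fin n, t ≠ Fin.rev t → ¬ (v = t ∨ v = Fin.rev t) := by
      rintro t ht (h | h)
      · subst h; exact ht hv
      · apply ht
        have : Fin.rev v = t := by rw [h, Fin.rev_rev]
        rw [← hv] at this
        rw [← this]; exact hv
    have hz : zc (Function.update x i v) = aa x i := by
      unfold zc aa
      congr 1; ext t
      simp only [mem_filter, mem_univ, true_and, hits_update]
      constructor
      · rintro ⟨h1, h2⟩; rw [if_neg (hne t h1)] at h2; exact ⟨h1, by simpa using h2⟩
      · rintro ⟨h1, h2⟩; rw [if_neg (hne t h1)]; exact ⟨h1, by simpa using h2⟩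
    have hb : bc (Function.update x i v) = bb x i := by
      unfold bc bb
      congr 1; ext t
      simp only [mem_filter, mem_univ, true_and, hits_update]
      constructor
      · rintro ⟨h1, h2⟩; rw [if_neg (hne t h1)] at h2; exact ⟨h1, by simpa using h2⟩
      · rintro ⟨h1, h2⟩; rw [if_neg (hne t h1)]; exact ⟨h1, by simpa using h2⟩
    rw [hz, hb]
  · have hvr : ∀ t : Fin n, (v = t ∨ v = Fin.rev t) → hits' x i t = hits' x i v := by
      rintro t (h | h)
      · rw [h]
      · rw [h, hits'_rev]
    have hpair : ({v, Fin.rev v} : Finset (Fin n)).card = 2 := card_pair hv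
    have hmem : ∀ t : Fin n, t ∈ ({v, Fin.rev v} : Finset (Fin n)) ↔ (v = t ∨ v = Fin.rev t) := by
      intro t
      simp only [mem_insert, mem_singleton]
      constructor
      · rintro (h | h)
        · exact Or.inl h.symm
        · right; rw [h, Fin.rev_rev]
      · rintro (h | h)
        · exact Or.inl h.symm
        · right; rw [h, Fin.rev_rev]
    have hnf : ∀ t : Fin n, (v = t ∨ v = Fin.rev t) → t ≠ Fin.rev t := by
      rintro t (h | h) h2
      · apply hv; rw [h]; exact h2
      · apply hv; rw [h, Fin.rev_rev]; exact h2.symm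
    rcases Nat.lt_or_ge (hits' x i v) 2 with h2 | h2
    · rcases Nat.eq_zero_or_pos (hits' x i v) with h0 | h0
      · rw [if_pos ⟨hv, h0⟩]
        have hz : zc (Function.update x i v) + 2 = aa x i := by
          unfold zc aa
          rw [← hpair, ← card_union_of_disjoint]
          · congr 1; ext t
            simp only [mem_union, hmem, mem_filter, mem_univ, true_and, hits_update]
            constructor
            · rintro (⟨h1, h3⟩ | h)
              · exact ⟨h1, by omega⟩
              · exact ⟨hnf t h, by rw [hvr t h]; exact h0⟩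
            · rintro ⟨h1, h3⟩
              by_cases h : v = t ∨ v = Fin.rev t
              · exact Or.inr h
              · left; rw [if_neg h]; exact ⟨h1, by simpa using h3⟩
          · rw [disjoint_left]
            intro t
            simp only [hmem, mem_filter, mem_univ, true_and, hits_update]
            rintro ⟨_, h3⟩ h
            rw [if_pos h] at h3; omega
        have hb : bc (Function.update x i v) = bb x i := by
          unfold bc bb
          congr 1; ext t
          simp only [mem_filter, mem_univ, true_and, hits_update]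
          constructor
          · rintro ⟨h1, h3⟩
            refine ⟨h1, ?_⟩
            by_cases h : v = t ∨ v = Fin.rev t
            · rw [if_pos h, hvr t h] at h3; omega
            · rw [if_neg h] at h3; omega
          · rintro ⟨h1, h3⟩; exact ⟨h1, by omega⟩
        rw [hb, ← hz]; push_cast; rfl
      · have h1' : hits' x i v = 1 := by omega
        rw [if_neg (by omega), if_pos ⟨hv, h1'⟩]
        have hz : zc (Function.update x i v) = aa x i := by
          unfold zc aa
          congr 1; ext t
          simp only [mem_filter, mem_univ, true_and, hits_update]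
          constructor
          · rintro ⟨h1, h3⟩; exact ⟨h1, by omega⟩
          · rintro ⟨h1, h3⟩
            refine ⟨h1, ?_⟩
            by_cases h : v = t ∨ v = Fin.rev t
            · rw [hvr t h] at h3; omega
            · rw [if_neg h]; omega
        have hb : bc (Function.update x i v) = bb x i + 2 := by
          unfold bc bb
          rw [← hpair, ← card_union_of_disjoint]
          · congr 1; ext t
            simp only [mem_union, hmem, mem_filter, mem_univ, true_and, hits_update]
            constructor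
            · rintro ⟨h1, h3⟩
              by_cases h : v = t ∨ v = Fin.rev t
              · exact Or.inr h
              · left; rw [if_neg h] at h3; exact ⟨h1, by simpa using h3⟩
            · rintro (⟨h1, h3⟩ | h)
              · exact ⟨h1, by omega⟩
              · refine ⟨hnf t h, ?_⟩
                rw [if_pos h, hvr t h]; omega
          · rw [disjoint_left]
            intro t
            simp only [hmem, mem_filter, mem_univ, true_and]
            rintro ⟨_, h3⟩ h
            rw [hvr t h] at h3; omega
        rw [hb, hz]; push_cast; rfl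
    · rw [if_neg (by omega), if_neg (by omega)]
      have hz : zc (Function.update x i v) = aa x i := by
        unfold zc aa
        congr 1; ext t
        simp only [mem_filter, mem_univ, true_and, hits_update]
        constructor
        · rintro ⟨h1, h3⟩; exact ⟨h1, by omega⟩
        · rintro ⟨h1, h3⟩
          refine ⟨h1, ?_⟩
          by_cases h : v = t ∨ v = Fin.rev t
          · rw [hvr t h] at h3; omega
          · rw [if_neg h]; omega
      have hb : bc (Function.update x i v) = bb x i := by
        unfold bc bb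
        congr 1; ext t
        simp only [mem_filter, mem_univ, true_and, hits_update]
        constructor
        · rintro ⟨h1, h3⟩
          refine ⟨h1, ?_⟩
          by_cases h : v = t ∨ v = Fin.rev t
          · rw [hvr t h]; omega
          · rw [if_neg h] at h3; omega
        · rintro ⟨h1, h3⟩; exact ⟨h1, by omega⟩
      rw [hb, hz]

lemma sum_rr (x : Fin d → Fin n) (i : Fin d) :
    ∑ v, rr x i v = (aa x i : ℚ) * ((bb x i : ℚ) / (aa x i : ℚ)) +
      (cc x i : ℚ) * (((bb x i : ℚ) + 2) / ((aa x i : ℚ) + 2)) +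
      ((n : ℚ) - aa x i - cc x i) * ((bb x i : ℚ) / ((aa x i : ℚ) + 2)) := by
  have e : ∀ v : Fin n, rr x i v =
      (if v ≠ Fin.rev v ∧ hits' x i v = 0 then (bb x i : ℚ) / (aa x i : ℚ) else 0) +
      (if v ≠ Fin.rev v ∧ hits' x i v = 1 then ((bb x i : ℚ) + 2) / ((aa x i : ℚ) + 2) else 0) +
      ((bb x i : ℚ) / ((aa x i : ℚ) + 2) -
      (if v ≠ Fin.rev v ∧ hits' x i v = 0 then (bb x i : ℚ) / ((aa x i : ℚ) + 2) else 0) -
      (if v ≠ Fin.rev v ∧ hits' x i v = 1 then (bb x i : ℚ) / ((aa x i : ℚ) + 2) else 0)) := by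
    intro v
    unfold rr
    by_cases h0 : v ≠ Fin.rev v ∧ hits' x i v = 0
    · have h1 : ¬ (v ≠ Fin.rev v ∧ hits' x i v = 1) := by omega
      simp only [if_pos h0, if_neg h1]; ring
    · by_cases h1 : v ≠ Fin.rev v ∧ hits' x i v = 1
      · simp only [if_neg h0, if_pos h1]; ring
      · simp only [if_neg h0, if_neg h1]; ring
  rw [sum_congr rfl (fun v _ => e v)]
  simp only [sum_add_distrib, sum_sub_distrib, ← sum_filter, sum_const, nsmul_eq_mul, card_univ,
    Fintype.card_fin]
  unfold aa cc
  ring

lemma key_ineq (hn : 2 * d ≤ n) (x : Fin d → Fin n) (i : Fin d) (v : Fin n) :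
    (n : ℚ) * rr x i v ≤ 2 + ∑ u, rr x i u := by
  rw [sum_rr]
  have hab : (bb x i : ℚ) ≤ aa x i := by exact_mod_cast bb_le_aa hn x i
  have hsum : (n : ℚ) ≤ aa x i + cc x i + bb x i + 1 := by
    have h1 := abc_card x i
    have h2 := nonfix_card (n := n)
    have : n ≤ aa x i + cc x i + bb x i + 1 := by omega
    exact_mod_cast this
  have ha : (0 : ℚ) ≤ aa x i := by positivity
  have hb : (0 : ℚ) ≤ bb x i := by positivity
  have hc : (0 : ℚ) ≤ cc x i := by positivity
  have hn0 : (0 : ℚ) ≤ n := by positivity
  unfold rr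
  generalize (aa x i : ℚ) = a at *
  generalize (bb x i : ℚ) = b at *
  generalize (cc x i : ℚ) = c at *
  have h2 : (0 : ℚ) < a + 2 := by linarith
  have hS : a * (b / a) + c * ((b + 2) / (a + 2)) + ((n : ℚ) - a - c) * (b / (a + 2))
      = (n * b + 2 * b + 2 * c) / (a + 2) := by
    rcases eq_or_lt_of_le ha with h0 | h0
    · have hb0 : b = 0 := by linarith
      subst hb0; rw [← h0]; ring
    · field_simp; ring
  rw [hS]
  have h3 : 2 + (n * b + 2 * b + 2 * c) / (a + 2) = (2 * (a + 2) + (n * b + 2 * b + 2 * c)) / (a + 2) := by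
    field_simp
  rw [h3]
  split_ifs with h h'
  · rcases eq_or_lt_of_le ha with h0 | h0
    · have hb0 : b = 0 := by linarith
      subst hb0
      rw [zero_div, mul_zero]
      positivity
    · rw [mul_div_assoc', div_le_div_iff₀ h0 h2]
      nlinarith [mul_nonneg hb hb, mul_nonneg hb hc, mul_nonneg ha hc, mul_nonneg ha hb,
        mul_le_mul_of_nonneg_right hsum hb, mul_le_mul hab hab hb ha,
        mul_le_mul_of_nonneg_right hab hc]
  · rw [mul_div_assoc', div_le_div_iff_of_pos_right h2]
    nlinarith
  · rw [mul_div_assoc', div_le_div_iff_of_pos_right h2]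
    nlinarith

lemma R_le (hn : 2 * d ≤ n) (x : Fin d → Fin n) (i : Fin d) :
    (n : ℚ) * R x ≤ 2 + ∑ u, R (Function.update x i u) := by
  have h := key_ineq hn x i (x i)
  rw [← R_update, Function.update_eq_self] at h
  simpa only [R_update] using h

/-- points: coordinates below i are taken from y, the others from x -/
def mix (i : ℕ) (y x : Fin d → Fin n) : Fin d → Fin n := fun j => if (j : ℕ) < i then y j else x j

/-- sum of R over all choices of coordinates below i (times multiplicity) -/
def SE (i : ℕ) (x : Fin d → Fin n) : ℚ := ∑ y : Fin d → Fin n, R (mix i y x)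

lemma sum_update (F : (Fin d → Fin n) → ℚ) (i : Fin d) :
    ∑ y : Fin d → Fin n, ∑ v : Fin n, F (Function.update y i v) = n * ∑ y : Fin d → Fin n, F y := by
  rw [← Fintype.sum_prod_type']
  let e : (Fin d → Fin n) × Fin n → (Fin d → Fin n) × Fin n :=
    fun p => (Function.update p.1 i p.2, p.1 i)
  have he : Function.Involutive e := by
    rintro ⟨y, v⟩
    simp [e]
  have h1 : ∑ p : (Fin d → Fin n) × Fin n, F (Function.update p.1 i p.2) =
      ∑ p : (Fin d → Fin n) × Fin n, F p.1 := by
    exact Fintype.sum_bijective e he.bijective _ _ (fun p => rfl)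
  rw [h1, Fintype.sum_prod_type]
  simp [mul_sum]

lemma mix_succ_update (i : Fin d) (y x : Fin d → Fin n) (v : Fin n) :
    mix ((i : ℕ) + 1) (Function.update y i v) x = Function.update (mix (i : ℕ) y x) i v := by
  ext j
  unfold mix
  by_cases hj : j = i
  · subst hj; simp
  · have : (j : ℕ) ≠ (i : ℕ) := fun h => hj (Fin.ext h)
    simp only [Function.update_of_ne hj]
    by_cases h : (j : ℕ) < i
    · rw [if_pos h, if_pos (by omega)]
    · rw [if_neg h, if_neg (by omega)]

lemma mix_update (i : Fin d) (y x : Fin d → Fin n) (v : Fin n) :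
    mix (i : ℕ) y (Function.update x i v) = Function.update (mix (i : ℕ) y x) i v := by
  ext j
  unfold mix
  by_cases hj : j = i
  · subst hj; simp
  · simp only [Function.update_of_ne hj]

lemma mix_succ_indep (i : Fin d) (y x : Fin d → Fin n) (v : Fin n) :
    mix ((i : ℕ) + 1) y (Function.update x i v) = mix ((i : ℕ) + 1) y x := by
  ext j
  unfold mix
  by_cases hj : j = i
  · subst hj; simp
  · simp only [Function.update_of_ne hj]

lemma SE_succ (i : Fin d) (x : Fin d → Fin n) :
    ∑ y : Fin d → Fin n, ∑ v, R (Function.update (mix (i : ℕ) y x) i v) = n * SE ((i : ℕ) + 1) x := by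
  unfold SE
  rw [← sum_update _ i]
  simp only [mix_succ_update]

lemma SE_sum (i : Fin d) (x : Fin d → Fin n) :
    ∑ v, SE (i : ℕ) (Function.update x i v) = n * SE ((i : ℕ) + 1) x := by
  rw [← SE_succ, sum_comm]
  unfold SE
  simp only [mix_update]

lemma SE_succ_indep (i : Fin d) (x : Fin d → Fin n) (v : Fin n) :
    SE ((i : ℕ) + 1) (Function.update x i v) = SE ((i : ℕ) + 1) x := by
  unfold SE
  simp only [mix_succ_indep]

lemma SE_le (hn : 2 * d ≤ n) (i : Fin d) (x : Fin d → Fin n) :
    (n : ℚ) * SE (i : ℕ) x ≤ 2 * (n : ℚ) ^ d + n * SE ((i : ℕ) + 1) x := by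
  rw [← SE_succ]
  unfold SE
  rw [mul_sum]
  have : (2 : ℚ) * (n : ℚ) ^ d = ∑ _y : Fin d → Fin n, (2 : ℚ) := by
    simp [mul_comm]
  rw [this, ← sum_add_distrib]
  exact sum_le_sum (fun y _ => R_le hn _ i)

lemma SE_zero (x : Fin d → Fin n) : SE 0 x = (n : ℚ) ^ d * R x := by
  unfold SE
  have : ∀ y : Fin d → Fin n, mix 0 y x = x := by
    intro y; ext j; simp [mix]
  simp [this]

lemma SE_last (x : Fin d → Fin n) : SE d x = ∑ y : Fin d → Fin n, R y := by
  unfold SE
  have : ∀ y : Fin d → Fin n, mix d y x = y := by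
    intro y; ext j; simp [mix]
  simp [this]

/-- weight given by an axis-parallel oriented line through `x` in direction `i` to the point `x` -/
def phi (i : Fin d) (x : Fin d → Fin n) : ℚ :=
  1 / n - (SE (i : ℕ) x - SE ((i : ℕ) + 1) x) / (2 * (n : ℚ) ^ d)

lemma phi_nonneg (hn : 2 * d ≤ n) (i : Fin d) (x : Fin d → Fin n) : 0 ≤ phi i x := by
  have h := SE_le hn i x
  have hd : 0 < d := i.pos
  have hn0 : (0 : ℚ) < n := by exact_mod_cast (by omega : 0 < n)
  have hp : (0 : ℚ) < (n : ℚ) ^ d := by positivity
  unfold phi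
  rw [sub_nonneg, div_le_div_iff₀ (by positivity) hn0]
  nlinarith

lemma phi_sum (hn : 2 * d ≤ n) (i : Fin d) (x : Fin d → Fin n) :
    ∑ v, phi i (Function.update x i v) = 1 := by
  have hd : 0 < d := i.pos
  have hn0 : (0 : ℚ) < n := by exact_mod_cast (by omega : 0 < n)
  unfold phi
  simp only [SE_succ_indep]
  rw [sum_sub_distrib, ← sum_div, ← sum_div, sum_sub_distrib, SE_sum]
  simp
  omega

lemma phi_total (hn : 2 * d ≤ n) (hd : 0 < d) (x : Fin d → Fin n) :
    ∑ i, 2 * phi i x + R x = 2 * (d : ℚ) / n + (∑ y : Fin d → Fin n, R y) / (n : ℚ) ^ d := by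
  have hn0 : (0 : ℚ) < n := by exact_mod_cast (by omega : 0 < n)
  have htel : ∑ i : Fin d, (SE (i : ℕ) x - SE ((i : ℕ) + 1) x) = SE 0 x - SE d x := by
    rw [Fin.sum_univ_eq_sum_range (fun i => SE i x - SE (i + 1) x) d]
    exact Finset.sum_range_sub' (fun i => SE i x) d
  unfold phi
  have : ∀ i : Fin d, 2 * (1 / (n : ℚ) - (SE (i : ℕ) x - SE ((i : ℕ) + 1) x) / (2 * (n : ℚ) ^ d))
      = 2 / n - (SE (i : ℕ) x - SE ((i : ℕ) + 1) x) / (n : ℚ) ^ d := by
    intro i; field_simp
  simp only [this]
  rw [sum_sub_distrib, ← sum_div, ← sum_div, htel, SE_zero, SE_last]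
  simp
  field_simp
  ring

/-- positions of the stars of a word -/
def stars (w : Fin d → Fin n ⊕ Bool) : Finset (Fin d) := univ.filter (fun j => (w j).isRight = true)

/-- values (not fixed by reversal) whose class is not used by the constants of the word -/
def Zw (w : Fin d → Fin n ⊕ Bool) : Finset (Fin n) :=
  univ.filter (fun t => t ≠ Fin.rev t ∧ ∀ j, w j ≠ Sum.inl t ∧ w j ≠ Sum.inl (Fin.rev t))

def wx (x : Fin d → Fin n) (t : Fin n) : Fin d → Fin n ⊕ Bool :=
  fun j => if x j = t then Sum.inr true else if x j = Fin.rev t then Sum.inr false else Sum.inl (x j)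

lemma stars_wx (x : Fin d → Fin n) (t : Fin n) :
    (stars (wx x t)).card = hits x t := by
  unfold stars hits wx
  congr 1; ext j
  simp only [mem_filter, mem_univ, true_and]
  by_cases h1 : x j = t
  · simp [h1]
  · by_cases h2 : x j = Fin.rev t
    · rw [if_neg h1, if_pos h2]; simp [h2]
    · rw [if_neg h1, if_neg h2]; simp [h1, h2]

lemma cond2_iff (x : Fin d → Fin n) (t : Fin n) (w : Fin d → Fin n ⊕ Bool) :
    (ev w t = x ∧ 2 ≤ (stars w).card ∧ t ∈ Zw w) ↔ (w = wx x t ∧ t ≠ Fin.rev t ∧ 2 ≤ hits x t) := by
  constructor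
  · rintro ⟨h1, h2, h3⟩
    unfold Zw at h3
    simp only [mem_filter, mem_univ, true_and] at h3
    have hw : w = wx x t := by
      ext1 j
      have hj := congrFun h1 j
      unfold ev at hj
      unfold wx
      rcases hwj : w j with c | s
      · rw [hwj] at hj
        simp only at hj
        have h4 := h3.2 j
        rw [hwj] at h4
        have hc1 : x j ≠ t := by rw [← hj]; intro h; exact h4.1 (by rw [h])
        have hc2 : x j ≠ Fin.rev t := by rw [← hj]; intro h; exact h4.2 (by rw [h])
        rw [if_neg hc1, if_neg hc2, hj]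
      · rw [hwj] at hj
        cases s
        · simp only at hj
          have : x j ≠ t := by rw [← hj]; exact fun h => h3.1 h.symm
          rw [if_neg this, if_pos hj.symm]
        · simp only at hj
          rw [if_pos hj.symm]
    refine ⟨hw, h3.1, ?_⟩
    rw [hw, stars_wx] at h2; exact h2
  · rintro ⟨h1, h2, h3⟩
    subst h1
    refine ⟨?_, by rw [stars_wx]; exact h3, ?_⟩
    · ext1 j
      unfold ev wx
      by_cases h4 : x j = t
      · simp [h4]
      · by_cases h5 : x j = Fin.rev t
        · rw [if_neg h4, if_pos h5]; exact h5.symm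
        · rw [if_neg h4, if_neg h5]
    · unfold Zw wx
      simp only [mem_filter, mem_univ, true_and]
      refine ⟨h2, fun j => ?_⟩
      by_cases h4 : x j = t
      · simp [h4]
      · by_cases h5 : x j = Fin.rev t
        · rw [if_neg h4, if_pos h5]; simp
        · rw [if_neg h4, if_neg h5]; simp [h4, h5]

lemma Zw_wx (x : Fin d → Fin n) (t : Fin n) (ht : t ≠ Fin.rev t) (hh : 2 ≤ hits x t) :
    (Zw (wx x t)).card = zc x + 2 := by
  have hpair : ({t, Fin.rev t} : Finset (Fin n)).card = 2 := card_pair ht
  unfold Zw zc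
  rw [← hpair, ← card_union_of_disjoint]
  · congr 1; ext s
    simp only [mem_union, mem_insert, mem_singleton, mem_filter, mem_univ, true_and]
    constructor
    · rintro ⟨h1, h2⟩
      by_cases h3 : s = t
      · exact Or.inr (Or.inl h3)
      · by_cases h4 : s = Fin.rev t
        · exact Or.inr (Or.inr h4)
        · left
          refine ⟨h1, ?_⟩
          unfold hits
          rw [card_eq_zero, filter_eq_empty_iff]
          intro j _ h5
          have h6 := h2 j
          unfold wx at h6
          rcases h5 with h5 | h5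
          · rw [if_neg (by rw [h5]; exact h3), if_neg (by rw [h5]; exact h4)] at h6
            exact h6.1 (by rw [h5])
          · have h7 : x j ≠ t := by
              rw [h5]; intro h; apply h4; rw [← h, Fin.rev_rev]
            have h8 : x j ≠ Fin.rev t := by
              rw [h5]; intro h; apply h3; exact Fin.rev_injective h
            rw [if_neg h7, if_neg h8] at h6
            exact h6.2 (by rw [h5])
    · rintro (⟨h1, h2⟩ | h | h)
      · refine ⟨h1, fun j => ?_⟩
        unfold hits at h2
        rw [card_eq_zero, filter_eq_empty_iff] at h2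
        have h3 := h2 (mem_univ j)
        push Not at h3
        unfold wx
        split_ifs with h4 h5
        · simp
        · simp
        · constructor
          · intro h; exact h3.1 (Sum.inl_injective h)
          · intro h; exact h3.2 (Sum.inl_injective h)
      · subst h
        refine ⟨ht, fun j => ?_⟩
        unfold wx
        split_ifs with h4 h5
        · simp
        · simp
        · constructor
          · intro h; exact h4 (Sum.inl_injective h)
          · intro h; exact h5 (Sum.inl_injective h)
      · subst h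
        rw [Fin.rev_rev]
        refine ⟨ht.symm, fun j => ?_⟩
        unfold wx
        split_ifs with h4 h5
        · simp
        · simp
        · constructor
          · intro h; exact h5 (Sum.inl_injective h)
          · intro h; exact h4 (Sum.inl_injective h)
  · rw [disjoint_left]
    intro s
    simp only [mem_insert, mem_singleton, mem_filter, mem_univ, true_and]
    rintro ⟨_, h2⟩ (h | h)
    · rw [h] at h2; omega
    · rw [h, hits_rev] at h2; omega

/-- the oriented words with exactly one star, at `i`, through `x` -/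
lemma cond1_iff (x : Fin d → Fin n) (i : Fin d) (p : (Fin d → Fin n ⊕ Bool) × Fin n) :
    (ev p.1 p.2 = x ∧ stars p.1 = {i}) ↔
      p ∈ ({(Function.update (fun j => Sum.inl (x j)) i (Sum.inr true), x i),
        (Function.update (fun j => Sum.inl (x j)) i (Sum.inr false), Fin.rev (x i))} :
          Finset ((Fin d → Fin n ⊕ Bool) × Fin n)) := by
  obtain ⟨w, t⟩ := p
  simp only [mem_insert, mem_singleton, Prod.mk.injEq]
  constructor
  · rintro ⟨h1, h2⟩
    have hs : ∀ j, (w j).isRight = true ↔ j = i := by
      intro j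
      have : j ∈ stars w ↔ j ∈ ({i} : Finset (Fin d)) := by rw [h2]
      simpa [stars] using this
    have hoff : ∀ j, j ≠ i → w j = Sum.inl (x j) := by
      intro j hj
      have hj1 := congrFun h1 j
      unfold ev at hj1
      have hj2 : ¬ ((w j).isRight = true) := fun h => hj ((hs j).1 h)
      rcases hwj : w j with c | s
      · rw [hwj] at hj1; simp only at hj1; rw [hj1]
      · rw [hwj] at hj2; simp at hj2
    have hi1 := congrFun h1 i
    unfold ev at hi1
    have hi2 := (hs i).2 rfl
    rcases hwi : w i with c | s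
    · rw [hwi] at hi2; simp at hi2
    · rw [hwi] at hi1
      cases s
      · right
        simp only at hi1
        refine ⟨?_, by rw [← hi1, Fin.rev_rev]⟩
        ext1 j
        by_cases hj : j = i
        · subst hj; simp [hwi]
        · rw [Function.update_of_ne hj]; exact hoff j hj
      · left
        simp only at hi1
        refine ⟨?_, hi1⟩
        ext1 j
        by_cases hj : j = i
        · subst hj; simp [hwi]
        · rw [Function.update_of_ne hj]; exact hoff j hj
  · rintro (⟨h1, h2⟩ | ⟨h1, h2⟩)
    · subst h1; subst h2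
      constructor
      · ext1 j
        unfold ev
        by_cases hj : j = i
        · subst hj; simp
        · rw [Function.update_of_ne hj]
      · ext j
        unfold stars
        by_cases hj : j = i
        · subst hj; simp
        · simp [hj]
    · subst h1; subst h2
      constructor
      · ext1 j
        unfold ev
        by_cases hj : j = i
        · subst hj; simp
        · rw [Function.update_of_ne hj]
      · ext j
        unfold stars
        by_cases hj : j = i
        · subst hj; simp
        · simp [hj]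

def g1 (w : Fin d → Fin n ⊕ Bool) (t : Fin n) : ℚ :=
  ∑ i, if stars w = {i} then phi i (ev w t) else 0

def g2 (w : Fin d → Fin n ⊕ Bool) (t : Fin n) : ℚ :=
  if 2 ≤ (stars w).card ∧ t ∈ Zw w then 1 / ((Zw w).card : ℚ) else 0

lemma g1_nonneg (hn : 2 * d ≤ n) (w : Fin d → Fin n ⊕ Bool) (t : Fin n) : 0 ≤ g1 w t := by
  unfold g1
  apply sum_nonneg
  intro i _
  split_ifs
  · exact phi_nonneg hn i _
  · exact le_refl _

lemma g2_nonneg (w : Fin d → Fin n ⊕ Bool) (t : Fin n) : 0 ≤ g2 w t := by
  unfold g2
  split_ifs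
  · positivity
  · exact le_refl _

lemma Zw_pos (hn : 2 * d ≤ n) (w : Fin d → Fin n ⊕ Bool) (hw : 2 ≤ (stars w).card) :
    0 < (Zw w).card := by
  -- the complement of Zw inside the non-fixed values is covered by at most 2 values per constant
  have h1 : (univ.filter (fun t : Fin n => t ≠ Fin.rev t)) ⊆
      Zw w ∪ ((univ : Finset (Fin d)).filter (fun j => ¬ ((w j).isRight = true))).biUnion
        (fun j => univ.filter (fun t : Fin n => w j = Sum.inl t ∨ w j = Sum.inl (Fin.rev t))) := by
    intro t ht
    simp only [mem_filter, mem_univ, true_and] at ht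
    by_cases h : t ∈ Zw w
    · exact mem_union_left _ h
    · apply mem_union_right
      unfold Zw at h
      simp only [mem_filter, mem_univ, true_and] at h
      have h' : ∃ j, ¬ (w j ≠ Sum.inl t ∧ w j ≠ Sum.inl (Fin.rev t)) := by
        by_contra h5
        push Not at h5
        exact h ⟨ht, h5⟩
      obtain ⟨j, hj⟩ := h'
      rw [mem_biUnion]
      by_cases h2 : w j = Sum.inl t
      · exact ⟨j, by simp [h2], by simp [h2]⟩
      · have h3 : w j = Sum.inl (Fin.rev t) := by
          by_contra h4; exact hj ⟨h2, h4⟩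
        exact ⟨j, by simp [h3], by simp [h3]⟩
  have h2 := card_le_card h1
  have h3 := card_union_le (Zw w) (((univ : Finset (Fin d)).filter (fun j => ¬ ((w j).isRight = true))).biUnion
        (fun j => univ.filter (fun t : Fin n => w j = Sum.inl t ∨ w j = Sum.inl (Fin.rev t))))
  have h4 : (((univ : Finset (Fin d)).filter (fun j => ¬ ((w j).isRight = true))).biUnion
        (fun j => univ.filter (fun t : Fin n => w j = Sum.inl t ∨ w j = Sum.inl (Fin.rev t)))).card
      ≤ ((univ : Finset (Fin d)).filter (fun j => ¬ ((w j).isRight = true))).card * 2 := by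
    apply card_biUnion_le_card_mul
    intro j _
    rcases hwj : w j with c | s
    · have : (univ.filter (fun t : Fin n => (Sum.inl c : Fin n ⊕ Bool) = Sum.inl t ∨
          (Sum.inl c : Fin n ⊕ Bool) = Sum.inl (Fin.rev t))) ⊆ {c, Fin.rev c} := by
        intro t
        simp only [mem_filter, mem_univ, true_and, mem_insert, mem_singleton]
        rintro (h | h)
        · left; exact (Sum.inl_injective h).symm
        · right; rw [Sum.inl_injective h, Fin.rev_rev]
      exact (card_le_card this).trans card_le_two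
    · simp
  have h5 := card_filter_add_card_filter_not (s := (univ : Finset (Fin d))) (fun j => (w j).isRight = true)
  have h6 : (univ.filter (fun j : Fin d => (w j).isRight = true)).card = (stars w).card := rfl
  rw [h6] at h5
  simp only [card_univ, Fintype.card_fin] at h5
  have h7 := nonfix_card (n := n)
  omega

lemma g2_row (hn : 2 * d ≤ n) (w : Fin d → Fin n ⊕ Bool) (hw : 2 ≤ (stars w).card) :
    ∑ t, g2 w t = 1 := by
  unfold g2
  simp only [hw, true_and]
  rw [sum_ite_mem]
  have := Zw_pos hn w hw
  simp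
  field_simp

lemma g1_row (hn : 2 * d ≤ n) (w : Fin d → Fin n ⊕ Bool) (i : Fin d) (hw : stars w = {i}) :
    ∑ t, g1 w t = 1 := by
  unfold g1
  have h : ∀ t, (∑ j, if stars w = {j} then phi j (ev w t) else 0) = phi i (ev w t) := by
    intro t
    rw [sum_eq_single i]
    · rw [if_pos hw]
    · intro j _ hj
      rw [if_neg]
      rw [hw]; intro h; exact hj (singleton_injective h).symm
    · simp
  simp only [h]
  have hs : ∀ j, (w j).isRight = true ↔ j = i := by
    intro j
    have : j ∈ stars w ↔ j ∈ ({i} : Finset (Fin d)) := by rw [hw]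
    simpa [stars] using this
  have hd : 0 < d := i.pos
  have t0 : Fin n := ⟨0, by omega⟩
  have hi2 := (hs i).2 rfl
  rcases hwi : w i with c | s
  · rw [hwi] at hi2; simp at hi2
  · have hoff : ∀ t j, j ≠ i → ev w t j = ev w t0 j := by
      intro t j hj
      unfold ev
      have hj2 : ¬ ((w j).isRight = true) := fun h => hj ((hs j).1 h)
      rcases hwj : w j with c | s
      · rfl
      · rw [hwj] at hj2; simp at hj2
    cases s
    · have e : ∀ t, ev w t = Function.update (ev w t0) i (Fin.rev t) := by
        intro t; ext1 j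
        by_cases hj : j = i
        · subst hj; simp [ev, hwi]
        · rw [Function.update_of_ne hj]; exact hoff t j hj
      rw [← phi_sum hn i (ev w t0)]
      exact Fintype.sum_bijective Fin.rev Fin.rev_bijective _ _ (fun t => congrArg _ (e t))
    · have e : ∀ t, ev w t = Function.update (ev w t0) i t := by
        intro t; ext1 j
        by_cases hj : j = i
        · subst hj; simp [ev, hwi]
        · rw [Function.update_of_ne hj]; exact hoff t j hj
      rw [← phi_sum hn i (ev w t0)]
      exact sum_congr rfl (fun t _ => congrArg _ (e t))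

def g (w : Fin d → Fin n ⊕ Bool) (t : Fin n) : ℚ := g1 w t + g2 w t

lemma g_row (hn : 2 * d ≤ n) (w : Fin d → Fin n ⊕ Bool) (hw : (stars w).Nonempty) :
    ∑ t, g w t = 1 := by
  unfold g
  rw [sum_add_distrib]
  have h1 : 1 ≤ (stars w).card := card_pos.2 hw
  rcases Nat.lt_or_ge (stars w).card 2 with h2 | h2
  · have h3 : (stars w).card = 1 := by omega
    obtain ⟨i, hi⟩ := card_eq_one.1 h3
    rw [g1_row hn w i hi]
    have : ∀ t, g2 w t = 0 := by
      intro t; unfold g2; rw [if_neg]; omega
    simp [this]
  · rw [g2_row hn w h2]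
    have : ∀ t, g1 w t = 0 := by
      intro t; unfold g1
      apply sum_eq_zero
      intro i _
      rw [if_neg]
      intro h; rw [h, card_singleton] at h2; omega
    simp [this]

lemma g_row0 (w : Fin d → Fin n ⊕ Bool) (hw : ¬ (stars w).Nonempty) (t : Fin n) :
    g w t = 0 := by
  rw [not_nonempty_iff_eq_empty] at hw
  unfold g g1 g2
  rw [hw]
  simp

lemma load1 (x : Fin d → Fin n) :
    ∑ p : (Fin d → Fin n ⊕ Bool) × Fin n, (if ev p.1 p.2 = x then g1 p.1 p.2 else 0) = ∑ i, 2 * phi i x := by
  have h1 : ∀ p : (Fin d → Fin n ⊕ Bool) × Fin n, (if ev p.1 p.2 = x then g1 p.1 p.2 else 0)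
      = ∑ i, if (ev p.1 p.2 = x ∧ stars p.1 = {i}) then phi i x else 0 := by
    intro p
    unfold g1
    by_cases h : ev p.1 p.2 = x
    · simp only [h, if_true, true_and]
    · simp only [h, if_false, false_and, sum_const_zero]
  simp only [h1]
  rw [sum_comm]
  apply sum_congr rfl
  intro i _
  simp only [cond1_iff]
  rw [sum_ite_mem, univ_inter, sum_const, card_pair]
  · simp
  · intro h
    have := congrArg (fun p => p.1 i) h
    simp at this

lemma load2 (x : Fin d → Fin n) :
    ∑ p : (Fin d → Fin n ⊕ Bool) × Fin n, (if ev p.1 p.2 = x then g2 p.1 p.2 else 0) = R x := by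
  rw [Fintype.sum_prod_type_right]
  have h1 : ∀ (t : Fin n) (w : Fin d → Fin n ⊕ Bool), (if ev w t = x then g2 w t else 0)
      = if w = wx x t then (if t ≠ Fin.rev t ∧ 2 ≤ hits x t then 1 / ((zc x : ℚ) + 2) else 0) else 0 := by
    intro t w
    unfold g2
    by_cases h : ev w t = x ∧ 2 ≤ (stars w).card ∧ t ∈ Zw w
    · have h' := (cond2_iff x t w).1 h
      rw [if_pos h.1, if_pos h.2, if_pos h'.1, if_pos h'.2]
      have := Zw_wx x t h'.2.1 h'.2.2
      rw [← h'.1] at this
      rw [this]; push_cast; rfl
    · have h' := (not_congr (cond2_iff x t w)).1 h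
      by_cases h3 : ev w t = x
      · rw [if_pos h3, if_neg (fun h4 => h ⟨h3, h4⟩)]
        by_cases h5 : w = wx x t
        · rw [if_pos h5, if_neg (fun h6 => h' ⟨h5, h6⟩)]
        · rw [if_neg h5]
      · rw [if_neg h3]
        by_cases h5 : w = wx x t
        · rw [if_pos h5, if_neg (fun h6 => h' ⟨h5, h6⟩)]
        · rw [if_neg h5]
  simp only [h1]
  simp only [sum_ite_eq', mem_univ, if_true]
  rw [← sum_filter]
  rw [sum_const]
  unfold R bc
  rw [nsmul_eq_mul, mul_one_div]

lemma load_eq (hn : 2 * d ≤ n) (hd : 0 < d) (x : Fin d → Fin n) :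
    ∑ p : (Fin d → Fin n ⊕ Bool) × Fin n, (if ev p.1 p.2 = x then g p.1 p.2 else 0)
      = 2 * (d : ℚ) / n + (∑ y : Fin d → Fin n, R y) / (n : ℚ) ^ d := by
  rw [← phi_total hn hd x, ← load1, ← load2, ← sum_add_distrib]
  apply sum_congr rfl
  intro p _
  unfold g
  split_ifs <;> simp

/-- the set of points of the line of a word -/
def lineOf (w : Fin d → Fin n ⊕ Bool) : Finset (Fin d → Fin n) := univ.image (ev w)

/-- all oriented lines, as words with at least one star -/
def W (n d : ℕ) : Finset (Fin d → Fin n ⊕ Bool) := univ.filter (fun w => (stars w).Nonempty)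

lemma total (hn : 2 * d ≤ n) (hd : 0 < d) :
    (n : ℚ) ^ d * (2 * (d : ℚ) / n + (∑ y : Fin d → Fin n, R y) / (n : ℚ) ^ d) = (W n d).card := by
  have h1 : (n : ℚ) ^ d * (2 * (d : ℚ) / n + (∑ y : Fin d → Fin n, R y) / (n : ℚ) ^ d) =
      ∑ x : Fin d → Fin n, ∑ p : (Fin d → Fin n ⊕ Bool) × Fin n,
        (if ev p.1 p.2 = x then g p.1 p.2 else 0) := by
    rw [sum_congr rfl (fun x _ => load_eq hn hd x)]
    simp
    ring
  rw [h1, sum_comm]
  simp only [sum_ite_eq, mem_univ, if_true]
  rw [Fintype.sum_prod_type]
  have h2 : ∀ w : Fin d → Fin n ⊕ Bool, ∑ t, g w t = if w ∈ W n d then 1 else 0 := by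
    intro w
    by_cases hw : (stars w).Nonempty
    · rw [g_row hn w hw, if_pos]; simp [W, hw]
    · rw [if_neg (by simp [W, hw])]
      exact sum_eq_zero (fun t _ => g_row0 w hw t)
  simp only [h2]
  rw [sum_ite_mem]
  simp

lemma load_le_one (hn : 2 * d ≤ n) (hd : 0 < d) (hW : (W n d).card ≤ n ^ d) (x : Fin d → Fin n) :
    ∑ p : (Fin d → Fin n ⊕ Bool) × Fin n, (if ev p.1 p.2 = x then g p.1 p.2 else 0) ≤ 1 := by
  rw [load_eq hn hd x]
  have h := total hn hd
  have hn0 : (0 : ℚ) < n := by exact_mod_cast (by omega : 0 < n)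
  have hp : (0 : ℚ) < (n : ℚ) ^ d := by positivity
  have h2 : ((W n d).card : ℚ) ≤ (n : ℚ) ^ d := by exact_mod_cast hW
  rw [← h] at h2
  by_contra h3
  push Not at h3
  nlinarith

lemma g_nonneg (hn : 2 * d ≤ n) (w : Fin d → Fin n ⊕ Bool) (t : Fin n) : 0 ≤ g w t :=
  add_nonneg (g1_nonneg hn w t) (g2_nonneg w t)

/-- Hall's condition -/
lemma hall_cond (hn : 2 * d ≤ n) (hd : 0 < d) (hW : (W n d).card ≤ n ^ d)
    (s : Finset (Fin d → Fin n ⊕ Bool)) (hs : s ⊆ W n d) :
    s.card ≤ (s.biUnion lineOf).card := by
  have h1 : (s.card : ℚ) = ∑ w ∈ s, ∑ t, g w t := by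
    rw [sum_congr rfl (g := fun _ => (1 : ℚ))]
    · simp
    · intro w hw
      have := hs hw
      simp only [W, mem_filter, mem_univ, true_and] at this
      exact g_row hn w this
  have h2 : ∑ w ∈ s, ∑ t, g w t ≤
      ∑ x ∈ s.biUnion lineOf, ∑ w, ∑ t, (if ev w t = x then g w t else 0) := by
    have hcomm : ∑ x ∈ s.biUnion lineOf, ∑ w, ∑ t, (if ev w t = x then g w t else 0) =
        ∑ w, ∑ x ∈ s.biUnion lineOf, ∑ t, (if ev w t = x then g w t else 0) := sum_comm
    rw [hcomm]
    have h3 : ∑ w ∈ s, ∑ t, g w t ≤ ∑ w ∈ s, ∑ x ∈ s.biUnion lineOf, ∑ t, (if ev w t = x then g w t else 0) := by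
      apply sum_le_sum
      intro w hw
      rw [sum_comm]
      apply sum_le_sum
      intro t _
      rw [sum_ite_eq, if_pos]
      rw [mem_biUnion]
      exact ⟨w, hw, mem_image_of_mem _ (mem_univ t)⟩
    refine h3.trans ?_
    apply sum_le_sum_of_subset_of_nonneg (subset_univ _)
    intro w _ _
    apply sum_nonneg
    intro x _
    apply sum_nonneg
    intro t _
    split_ifs
    · exact g_nonneg hn w t
    · exact le_refl _
  have h4 : ∑ x ∈ s.biUnion lineOf, ∑ w, ∑ t, (if ev w t = x then g w t else 0) ≤
      ∑ x ∈ s.biUnion lineOf, (1 : ℚ) := by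
    apply sum_le_sum
    intro x _
    have := load_le_one hn hd hW x
    rw [Fintype.sum_prod_type] at this
    exact this
  have h5 : (s.card : ℚ) ≤ ((s.biUnion lineOf).card : ℚ) := by
    rw [h1]
    refine (h2.trans h4).trans ?_
    simp
  exact_mod_cast h5

lemma exists_inj (hn : 2 * d ≤ n) (hd : 0 < d) (hW : (W n d).card ≤ n ^ d) :
    ∃ f : (Fin d → Fin n ⊕ Bool) → (Fin d → Fin n),
      (∀ w ∈ W n d, f w ∈ lineOf w) ∧ (∀ w ∈ W n d, ∀ w' ∈ W n d, f w = f w' → w = w') := by
  have h := (Finset.all_card_le_biUnion_card_iff_exists_injective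
    (fun w : {w // w ∈ W n d} => lineOf w.1)).1 (by
      intro s
      have h2 := hall_cond hn hd hW (s.map (Function.Embedding.subtype _)) (by
        intro w hw
        rw [mem_map] at hw
        obtain ⟨a, _, ha⟩ := hw
        rw [← ha]; exact a.2)
      rw [card_map] at h2
      refine h2.trans (card_le_card ?_)
      intro x hx
      rw [mem_biUnion] at hx ⊢
      obtain ⟨w, hw, hx⟩ := hx
      rw [mem_map] at hw
      obtain ⟨a, ha, ha2⟩ := hw
      refine ⟨a, ha, ?_⟩
      have : (a : Fin d → Fin n ⊕ Bool) = w := ha2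
      rw [this]; exact hx)
  obtain ⟨f, hf, hf2⟩ := h
  classical
  have x0 : Fin d → Fin n := fun _ => ⟨0, by omega⟩
  refine ⟨fun w => if hw : w ∈ W n d then f ⟨w, hw⟩ else x0, ?_, ?_⟩
  · intro w hw
    simp only [dif_pos hw]
    exact hf2 ⟨w, hw⟩
  · intro w hw w' hw' h
    simp only [dif_pos hw, dif_pos hw'] at h
    have := hf h
    exact congrArg Subtype.val this

lemma card_words : (W n d).card + n ^ d = (n + 2) ^ d := by
  have h := card_filter_add_card_filter_not (s := (univ : Finset (Fin d → Fin n ⊕ Bool)))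
    (fun w => (stars w).Nonempty)
  have h2 : (univ.filter (fun w : Fin d → Fin n ⊕ Bool => ¬ (stars w).Nonempty)).card = n ^ d := by
    have h3 : (univ.filter (fun w : Fin d → Fin n ⊕ Bool => ¬ (stars w).Nonempty)) =
        univ.image (fun (x : Fin d → Fin n) => (fun j => (Sum.inl (x j) : Fin n ⊕ Bool))) := by
      ext w
      simp only [mem_filter, mem_univ, true_and, mem_image, not_nonempty_iff_eq_empty]
      constructor
      · intro hw
        have hw2 : ∀ j, ∃ c, w j = Sum.inl c := by
          intro j
          rcases hwj : w j with c | s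
          · exact ⟨c, rfl⟩
          · exfalso
            have : j ∈ stars w := by simp [stars, hwj]
            rw [hw] at this; simp at this
        choose x hx using hw2
        exact ⟨x, by ext1 j; exact (hx j).symm⟩
      · rintro ⟨x, rfl⟩
        simp [stars]
    rw [h3, card_image_of_injective]
    · simp
    · intro x y hxy
      ext1 j
      exact Sum.inl_injective (congrFun hxy j)
  rw [h2] at h
  have h4 : (univ : Finset (Fin d → Fin n ⊕ Bool)).card = (n + 2) ^ d := by
    simp
  rw [h4] at h
  exact h

lemma two_d_le (hn : 2 ≤ n) (hW : (W n d).card ≤ n ^ d) : 2 * d ≤ n := by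
  have h := card_words (n := n) (d := d)
  have h1 : (n + 2) ^ d ≤ 2 * n ^ d := by omega
  have h2 : (((n : ℚ) + 2)) ^ d ≤ 2 * (n : ℚ) ^ d := by exact_mod_cast h1
  have hn0 : (0 : ℚ) < n := by exact_mod_cast (by omega : 0 < n)
  have h3 : 1 + (d : ℚ) * (2 / n) ≤ (1 + 2 / (n : ℚ)) ^ d := by
    apply one_add_mul_le_pow
    have : (0 : ℚ) ≤ 2 / n := by positivity
    linarith
  have h4 : (1 + 2 / (n : ℚ)) ^ d = ((n : ℚ) + 2) ^ d / (n : ℚ) ^ d := by
    rw [← div_pow]; congr 1; field_simp
  have h5 : ((n : ℚ) + 2) ^ d / (n : ℚ) ^ d ≤ 2 := by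
    rw [div_le_iff₀ (by positivity)]; exact h2
  have h6 : (d : ℚ) * (2 / n) ≤ 1 := by linarith
  have h7 : (d : ℚ) * 2 ≤ n := by
    have h8 : (d : ℚ) * (2 / n) * n ≤ 1 * n := mul_le_mul_of_nonneg_right h6 hn0.le
    have h9 : (d : ℚ) * (2 / n) * n = d * 2 := by field_simp
    linarith
  have h10 : d * 2 ≤ n := by exact_mod_cast h7
  omega

/-- reversal of an oriented line -/
def rv (w : Fin d → Fin n ⊕ Bool) : Fin d → Fin n ⊕ Bool :=
  fun j => match w j with
    | Sum.inl c => Sum.inl c
    | Sum.inr b => Sum.inr (!b)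

lemma ev_rv (w : Fin d → Fin n ⊕ Bool) (t : Fin n) : ev (rv w) t = ev w (Fin.rev t) := by
  ext1 j
  unfold ev rv
  rcases w j with c | s
  · rfl
  · cases s
    · simp
    · simp

lemma lineOf_rv (w : Fin d → Fin n ⊕ Bool) : lineOf (rv w) = lineOf w := by
  unfold lineOf
  ext x
  simp only [mem_image, mem_univ, true_and, ev_rv]
  constructor
  · rintro ⟨t, ht⟩; exact ⟨Fin.rev t, ht⟩
  · rintro ⟨t, ht⟩; exact ⟨Fin.rev t, by rw [Fin.rev_rev]; exact ht⟩

lemma stars_rv (w : Fin d → Fin n ⊕ Bool) : stars (rv w) = stars w := by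
  unfold stars rv
  ext j
  simp only [mem_filter, mem_univ, true_and]
  rcases w j with c | s <;> simp

lemma rv_rv (w : Fin d → Fin n ⊕ Bool) : rv (rv w) = w := by
  ext1 j
  unfold rv
  rcases hwj : w j with c | s <;> simp

lemma rv_mem (w : Fin d → Fin n ⊕ Bool) (hw : w ∈ W n d) : rv w ∈ W n d := by
  unfold W at *
  simp only [mem_filter, mem_univ, true_and] at *
  rw [stars_rv]; exact hw

lemma rv_ne (w : Fin d → Fin n ⊕ Bool) (hw : w ∈ W n d) : rv w ≠ w := by
  unfold W at hw
  simp only [mem_filter, mem_univ, true_and] at hw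
  obtain ⟨j, hj⟩ := hw
  simp only [stars, mem_filter, mem_univ, true_and] at hj
  intro h
  have h2 := congrFun h j
  unfold rv at h2
  rcases hwj : w j with c | s
  · rw [hwj] at hj; simp at hj
  · rw [hwj] at h2; simp at h2

lemma ev_inj (hn : 2 ≤ n) (w w' : Fin d → Fin n ⊕ Bool) (h : ∀ t, ev w t = ev w' t) : w = w' := by
  ext1 j
  have h0 := congrFun (h ⟨0, by omega⟩) j
  have h1 := congrFun (h ⟨n - 1, by omega⟩) j
  unfold ev at h0 h1
  rcases hwj : w j with c | s <;> rcases hwj' : w' j with c' | s' <;> rw [hwj, hwj'] at h0 h1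
  · simp only at h0; rw [h0]
  · exfalso
    cases s' <;> simp only [Fin.ext_iff, Fin.val_rev] at h0 h1 <;> omega
  · exfalso
    cases s <;> simp only [Fin.ext_iff, Fin.val_rev] at h0 h1 <;> omega
  · cases s <;> cases s' <;> first | rfl | (exfalso; simp only [Fin.ext_iff, Fin.val_rev] at h0 h1; omega)

lemma lineOf_eq_aux (hn : 2 ≤ n) (w w' : Fin d → Fin n ⊕ Bool) (h : lineOf w = lineOf w')
    (j : Fin d) (b : Bool) (hj : w j = Sum.inr b) (hj' : w' j = Sum.inr b) : w = w' := by
  apply ev_inj hn
  intro t
  have h1 : ev w t ∈ lineOf w' := by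
    rw [← h]; exact mem_image_of_mem _ (mem_univ t)
  unfold lineOf at h1
  rw [mem_image] at h1
  obtain ⟨t', _, ht'⟩ := h1
  have h2 := congrFun ht' j
  unfold ev at h2
  rw [hj, hj'] at h2
  have h3 : t' = t := by
    cases b
    · simp only at h2; exact Fin.rev_injective h2
    · simpa using h2
  rw [← ht', h3]

lemma lineOf_eq (hn : 2 ≤ n) (w w' : Fin d → Fin n ⊕ Bool) (hw : w ∈ W n d)
    (h : lineOf w = lineOf w') : w' = w ∨ w' = rv w := by
  unfold W at hw
  simp only [mem_filter, mem_univ, true_and] at hw
  obtain ⟨j, hj⟩ := hw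
  simp only [stars, mem_filter, mem_univ, true_and] at hj
  rcases hwj : w j with c | s
  · rw [hwj] at hj; simp at hj
  · rcases hwj' : w' j with c' | s'
    · exfalso
      have e : ∀ t, ev w t j = c' := by
        intro t
        have h1 : ev w t ∈ lineOf w' := by
          rw [← h]; exact mem_image_of_mem _ (mem_univ t)
        unfold lineOf at h1
        rw [mem_image] at h1
        obtain ⟨t', _, ht'⟩ := h1
        rw [← ht']
        unfold ev
        rw [hwj']
      have e0 := e ⟨0, by omega⟩
      have e1 := e ⟨n - 1, by omega⟩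
      unfold ev at e0 e1
      rw [hwj] at e0 e1
      cases s <;> simp only [Fin.ext_iff, Fin.val_rev] at e0 e1 <;> omega
    · by_cases hss : s = s'
      · left
        subst hss
        exact (lineOf_eq_aux hn w w' h j s hwj hwj').symm
      · right
        apply lineOf_eq_aux hn w' (rv w) (by rw [lineOf_rv, h]) j s' hwj'
        unfold rv
        rw [hwj]
        cases s <;> cases s' <;> simp_all

lemma card_lines (hn : 2 ≤ n) : (W n d).card = 2 * ((W n d).image lineOf).card := by
  rw [card_eq_sum_card_image lineOf (W n d)]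
  rw [sum_congr rfl (g := fun _ => 2)]
  · simp [mul_comm]
  · intro ℓ hℓ
    rw [mem_image] at hℓ
    obtain ⟨w, hw, rfl⟩ := hℓ
    have : (W n d).filter (fun w' => lineOf w' = lineOf w) = {w, rv w} := by
      ext w'
      simp only [mem_filter, mem_insert, mem_singleton]
      constructor
      · rintro ⟨_, h2⟩
        exact lineOf_eq hn w w' hw h2.symm
      · rintro (h | h)
        · rw [h]; exact ⟨hw, rfl⟩
        · rw [h]; exact ⟨rv_mem w hw, lineOf_rv w⟩
    rw [this, card_pair (rv_ne w hw).symm]

lemma isGeomLine_iff (hn : 2 ≤ n) (L : Finset (Fin d → Fin n)) :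
    IsGeomLine n d L ↔ L ∈ (W n d).image lineOf := by
  rw [mem_image]
  constructor
  · rintro ⟨x, h1, ⟨j0, hj0⟩, rfl⟩
    have h2 : ∀ j, ∃ a : Fin n ⊕ Bool, (∀ i, x i j = match a with
        | Sum.inl c => c
        | Sum.inr true => i
        | Sum.inr false => Fin.rev i) ∧ ((¬ ∃ c, ∀ i, x i j = c) → a.isRight = true) := by
      intro j
      rcases h1 j with ⟨c, hc⟩ | h | h
      · exact ⟨Sum.inl c, hc, fun h => absurd ⟨c, hc⟩ h⟩
      · exact ⟨Sum.inr true, h, fun _ => rfl⟩
      · exact ⟨Sum.inr false, h, fun _ => rfl⟩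
    choose w hw using h2
    refine ⟨w, ?_, ?_⟩
    · simp only [W, mem_filter, mem_univ, true_and]
      exact ⟨j0, by simp only [stars, mem_filter, mem_univ, true_and]; exact (hw j0).2 hj0⟩
    · unfold lineOf
      congr 1
      funext i j
      exact ((hw j).1 i).symm
  · rintro ⟨w, hw, rfl⟩
    simp only [W, mem_filter, mem_univ, true_and] at hw
    obtain ⟨j0, hj0⟩ := hw
    simp only [stars, mem_filter, mem_univ, true_and] at hj0
    refine ⟨ev w, ?_, ⟨j0, ?_⟩, rfl⟩
    · intro j
      unfold ev
      rcases hwj : w j with c | s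
      · exact Or.inl ⟨c, fun _ => rfl⟩
      · cases s
        · exact Or.inr (Or.inr (fun _ => rfl))
        · exact Or.inr (Or.inl (fun _ => rfl))
    · rintro ⟨c, hc⟩
      have e0 := hc ⟨0, by omega⟩
      have e1 := hc ⟨n - 1, by omega⟩
      unfold ev at e0 e1
      rcases hwj : w j0 with c | s
      · rw [hwj] at hj0; simp at hj0
      · rw [hwj] at e0 e1
        cases s <;> simp only [Fin.ext_iff, Fin.val_rev] at e0 e1 <;> omega

lemma numLines_eq (hn : 2 ≤ n) : (W n d).card = 2 * numLines n d := by
  rw [card_lines hn]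
  congr 1
  unfold numLines
  rw [← Set.ncard_coe_finset]
  congr 1
  ext L
  simp only [Set.mem_ofPred_eq, isGeomLine_iff hn, mem_coe]

/-- Sanity check: the usual formula for the number of geometric lines. -/
lemma two_mul_numLines (n d : ℕ) (hn : 2 ≤ n) : 2 * numLines n d = (n + 2) ^ d - n ^ d := by
  rw [← numLines_eq hn, ← card_words]
  omega

/-- **Hales-Jewett conjecture, pairing form.** If the board `[n]^d` has at least twice as many
points as geometric lines, then it admits a pairing draw. -/
theorem pairing_draw : ∀ n d : ℕ, 2 ≤ n → 1 ≤ d → 2 * numLines n d ≤ n ^ d → HasPairingDraw n d := by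
  intro n d hn hd hL
  have hW : (W n d).card ≤ n ^ d := by rw [numLines_eq hn]; exact hL
  have h2d := two_d_le hn hW
  obtain ⟨f, hf1, hf2⟩ := exists_inj h2d hd hW
  refine ⟨(W n d).image (fun w => {f w, f (rv w)}), ?_, ?_, ?_⟩
  · intro p hp
    rw [mem_image] at hp
    obtain ⟨w, hw, rfl⟩ := hp
    apply card_pair
    intro h
    exact rv_ne w hw (hf2 w hw (rv w) (rv_mem w hw) h).symm
  · intro p hp q hq hpq
    rw [mem_image] at hp hq
    obtain ⟨w, hw, rfl⟩ := hp
    obtain ⟨w', hw', rfl⟩ := hq
    rw [disjoint_left]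
    intro x hx hx'
    apply hpq
    simp only [mem_insert, mem_singleton] at hx hx'
    have key : w' = w ∨ w' = rv w := by
      rcases hx with h | h <;> rcases hx' with h' | h'
      · left; exact hf2 w' hw' w hw (h'.symm.trans h)
      · right
        have := hf2 (rv w') (rv_mem w' hw') w hw (h'.symm.trans h)
        rw [← this, rv_rv]
      · right; exact hf2 w' hw' (rv w) (rv_mem w hw) (h'.symm.trans h)
      · left
        have := hf2 (rv w') (rv_mem w' hw') (rv w) (rv_mem w hw) (h'.symm.trans h)
        rw [← rv_rv w', this, rv_rv]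
    rcases key with h | h
    · rw [h]
    · rw [h, rv_rv]; exact pair_comm _ _
  · intro L hLine
    rw [isGeomLine_iff hn, mem_image] at hLine
    obtain ⟨w, hw, rfl⟩ := hLine
    refine ⟨{f w, f (rv w)}, mem_image_of_mem _ hw, ?_⟩
    intro x hx
    simp only [mem_insert, mem_singleton] at hx
    rcases hx with h | h
    · rw [h]; exact hf1 w hw
    · rw [h, ← lineOf_rv]; exact hf1 (rv w) (rv_mem w hw)

end Pool.Agent.Helper582.Pairing
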