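import Mathlib
import Pool.Agent.Helper582.Pairing
import Pool.Agent.Helper582.Cube

set_option autoImplicit false

namespace Pool.Agent.Helper582.Cube

open Set

theorem BW_pairs {X : Type*} [Nontrivial X] {P : Set (Set X)}
    (h2 : ∀ p ∈ P, ∃ a b, a ≠ b ∧ p = {a, b})
    (hd : ∀ p ∈ P, ∀ q ∈ P, p ≠ q → Disjoint p q) : BW P := by
  refine ⟨fun P => (∀ p ∈ P, ∃ a b, a ≠ b ∧ p = {a, b}) ∧
    (∀ p ∈ P, ∀ q ∈ P, p ≠ q → Disjoint p q), ?_, h2, hd⟩
  rintro P ⟨h2, hd⟩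
  have sub : ∀ K : Set (Set X), K ⊆ P → (∀ p ∈ K, ∃ a b, a ≠ b ∧ p = {a, b}) ∧
      (∀ p ∈ K, ∀ q ∈ K, p ≠ q → Disjoint p q) :=
    fun K hK => ⟨fun p hp => h2 p (hK hp), fun p hp q hq => hd p (hK hp) q (hK hq)⟩
  refine ⟨?_, fun x => ?_⟩
  · intro h0
    obtain ⟨a, b, _, h⟩ := h2 _ h0
    have : a ∈ (∅ : Set X) := by rw [h]; exact Or.inl rfl
    exact this
  · by_cases hx : ∃ p ∈ P, x ∈ p
    · obtain ⟨p, hp, hxp⟩ := hx
      obtain ⟨a, b, hab, rfl⟩ := h2 p hp
      have main : ∀ y, y ≠ x → y ∈ ({a, b} : Set X) →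
          ∃ y, y ≠ x ∧ (∀ p ∈ reply P x y, ∃ a b, a ≠ b ∧ p = {a, b}) ∧
            (∀ p ∈ reply P x y, ∀ q ∈ reply P x y, p ≠ q → Disjoint p q) := by
        intro y hy hyp
        refine ⟨y, hy, sub _ ?_⟩
        rintro s ⟨e, he, hye, rfl⟩
        have hne : e ≠ {a, b} := by
          rintro rfl
          exact hye hyp
        have hdis := hd e he _ hp hne
        have hxe : x ∉ e := fun h => (Set.disjoint_left.1 hdis h) hxp
        rwa [sdiff_singleton_eq_self hxe]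
      rcases hxp with rfl | hxb
      · exact main b hab.symm (Or.inr rfl)
      · rw [mem_singleton_iff] at hxb
        subst hxb
        exact main a hab (Or.inl rfl)
    · obtain ⟨y, hy⟩ := exists_ne x
      refine ⟨y, hy, sub _ ?_⟩
      rintro s ⟨e, he, _, rfl⟩
      have hxe : x ∉ e := fun h => hx ⟨e, he, h⟩
      rwa [sdiff_singleton_eq_self hxe]

theorem BW_large {n : ℕ} (hn : 8 ≤ n) [Nontrivial (Fin 3 → Fin n)] : BW (cubeLines n) := by
  have hcount : 2 * Pairing.numLines n 3 ≤ n ^ 3 := by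
    rw [Pairing.two_mul_numLines n 3 (by omega)]
    obtain ⟨k, rfl⟩ := Nat.exists_eq_add_of_le hn
    rw [Nat.sub_le_iff_le_add]
    ring_nf
    nlinarith [sq_nonneg k, Nat.zero_le k]
  obtain ⟨P, h2, hd, hl⟩ := Pairing.pairing_draw n 3 (by omega) (by norm_num) hcount
  have hP : BW {s : Set (Fin 3 → Fin n) | ∃ p ∈ P, s = ↑p} := by
    apply BW_pairs
    · rintro s ⟨p, hp, rfl⟩
      obtain ⟨a, b, hab, rfl⟩ := Finset.card_eq_two.1 (h2 p hp)
      exact ⟨a, b, hab, by simp⟩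
    · rintro s ⟨p, hp, rfl⟩ t ⟨q, hq, rfl⟩ hne
      have : p ≠ q := fun h => hne (by rw [h])
      exact Finset.disjoint_coe.2 (hd p hp q hq this)
  refine hP.mono ?_
  rintro s ⟨a, t, ⟨j0, hj0⟩, rfl⟩
  set pt : Fin n → Fin 3 → Fin n :=
    fun i j => if t j = 0 then a j else if t j = 1 then i else Fin.rev i with hpt
  have hline : Pairing.IsGeomLine n 3 (Finset.univ.image pt) := by
    refine ⟨pt, ?_, ?_, rfl⟩
    · intro j
      by_cases h0 : t j = 0
      · left; exact ⟨a j, fun i => by simp [hpt, h0]⟩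
      · by_cases h1 : t j = 1
        · right; left; intro i; simp [hpt, h1]
        · right; right; intro i; simp [hpt, h0, h1]
    · refine ⟨j0, ?_⟩
      rintro ⟨c, hc⟩
      have e0 := hc ⟨0, by omega⟩
      have e1 := hc ⟨1, by omega⟩
      simp only [hpt, if_neg hj0] at e0 e1
      by_cases h1 : t j0 = 1
      · simp only [if_pos h1] at e0 e1
        rw [← e1] at e0
        simp [Fin.ext_iff] at e0
      · simp only [if_neg h1] at e0 e1
        rw [← e1] at e0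
        simp [Fin.ext_iff, Fin.val_rev] at e0
        omega
  obtain ⟨p, hp, hsub⟩ := hl _ hline
  refine ⟨↑p, ⟨p, hp, rfl⟩, ?_⟩
  intro v hv
  have := hsub hv
  rw [Finset.mem_image] at this
  obtain ⟨i, _, hi⟩ := this
  exact ⟨i, hi.symm⟩

end Pool.Agent.Helper582.Cube
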