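import Mathlib
import Pool.Agent.Helper582.Cube

set_option autoImplicit false

namespace Pool.Agent.Helper582.Cube

open Set

theorem BW_reply_cube {n : ℕ} [NeZero n] [Nontrivial (Fin 3 → Fin n)] {L : List ℕ}
    (hc : covers n L = true) (x y : Fin 3 → Fin n)
    (hL : BW (fam (rep (one (enc n x)) (one (enc n y)) L))) : BW (reply (cubeLines n) x y) := by
  rw [rep_spec] at hL
  refine hL.pull (enc n) (enc_inj n) ?_
  rintro s ⟨l, hl, hy, rfl⟩
  obtain ⟨k, hk, hkl⟩ := covers_spec hc l hl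
  refine ⟨k \ {enc n x}, ⟨k, hk, ?_, rfl⟩, ?_⟩
  · intro hyk
    obtain ⟨v, hv, hve⟩ := hkl hyk
    exact hy (enc_inj n hve ▸ hv)
  · rintro a ⟨ha, hax⟩
    obtain ⟨b, hb, rfl⟩ := hkl ha
    exact ⟨b, ⟨hb, fun hbx => hax (by rw [mem_singleton_iff] at hbx ⊢; rw [hbx])⟩, rfl⟩

def flip {n : ℕ} (b : Bool) (u : Fin n) : Fin n := cond b (Fin.rev u) u

theorem flip_inj {n : ℕ} (b : Bool) : Function.Injective (flip b : Fin n → Fin n) := by
  cases b
  · exact fun _ _ h => h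
  · exact Fin.rev_injective

def act {n : ℕ} (s : Fin 3 → Fin 3) (τ : Fin n → Fin n) (ε : Fin 3 → Bool)
    (v : Fin 3 → Fin n) : Fin 3 → Fin n := fun j => τ (flip (ε (s j)) (v (s j)))

theorem act_inj {n : ℕ} {s : Fin 3 → Fin 3} {τ : Fin n → Fin n} (ε : Fin 3 → Bool)
    (hs : Function.Injective s) (hτ : Function.Injective τ) :
    Function.Injective (act s τ ε) := by
  intro v w h
  have hs' : Function.Surjective s := Finite.injective_iff_surjective.1 hs
  funext j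
  obtain ⟨i, rfl⟩ := hs' j
  exact flip_inj _ (hτ (congrFun h i))

theorem act_line {n : ℕ} {s : Fin 3 → Fin 3} {τ : Fin n → Fin n} (ε : Fin 3 → Bool)
    (hs : Function.Injective s) (hτ : Function.Injective τ)
    (hr : ∀ u, τ (Fin.rev u) = Fin.rev (τ u)) {l : Set (Fin 3 → Fin n)} (hl : l ∈ cubeLines n) :
    act s τ ε '' l ∈ cubeLines n := by
  obtain ⟨a, t, ⟨j0, hj0⟩, rfl⟩ := hl
  have hs' : Function.Surjective s := Finite.injective_iff_surjective.1 hs
  have hτ' : Function.Surjective τ := Finite.injective_iff_surjective.1 hτ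
  set t' : Fin 3 → Fin 3 := fun j => if t (s j) = 0 then 0 else
    if t (s j) = 1 then cond (ε (s j)) 2 1 else cond (ε (s j)) 1 2 with ht'
  have key : ∀ i, act s τ ε (fun j => if t j = 0 then a j else if t j = 1 then i else Fin.rev i)
      = fun j => if t' j = 0 then τ (flip (ε (s j)) (a (s j))) else
        if t' j = 1 then τ i else Fin.rev (τ i) := by
    intro i
    funext j
    simp only [act, ht']
    by_cases h0 : t (s j) = 0
    · simp [h0]
    · by_cases h1 : t (s j) = 1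
      · cases hε : ε (s j) <;> simp [h1, flip, hr]
      · cases hε : ε (s j) <;> simp [h0, h1, flip, hr]
  refine ⟨fun j => τ (flip (ε (s j)) (a (s j))), t', ?_, ?_⟩
  · obtain ⟨j, rfl⟩ := hs' j0
    refine ⟨j, ?_⟩
    simp only [ht', if_neg hj0]
    by_cases h1 : t (s j) = 1
    · cases ε (s j) <;> simp [h1]
    · cases ε (s j) <;> simp [h1]
  · ext v
    constructor
    · rintro ⟨w, ⟨i, rfl⟩, rfl⟩
      exact ⟨τ i, key i⟩
    · rintro ⟨i, rfl⟩
      obtain ⟨k, rfl⟩ := hτ' i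
      exact ⟨_, ⟨k, rfl⟩, key k⟩

theorem BW_reply_act {n : ℕ} [Nontrivial (Fin 3 → Fin n)]
    {s : Fin 3 → Fin 3} {τ : Fin n → Fin n} (ε : Fin 3 → Bool)
    (hs : Function.Injective s) (hτ : Function.Injective τ)
    (hr : ∀ u, τ (Fin.rev u) = Fin.rev (τ u)) {x r yr : Fin 3 → Fin n} (hx : act s τ ε x = r)
    (hne : yr ≠ r) (h : BW (reply (cubeLines n) r yr)) :
    ∃ y, y ≠ x ∧ BW (reply (cubeLines n) x y) := by
  have hinj := act_inj ε hs hτ
  obtain ⟨y, hy⟩ := Finite.injective_iff_surjective.1 hinj yr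
  refine ⟨y, fun h => hne (by rw [← hy, h, hx]), ?_⟩
  refine h.pull (act s τ ε) hinj ?_
  rintro e ⟨l, hl, hyl, rfl⟩
  refine ⟨(act s τ ε '' l) \ {r}, ⟨_, act_line ε hs hτ hr hl, ?_, rfl⟩, ?_⟩
  · rintro ⟨w, hw, hwy⟩
    exact hyl (hinj (hwy.trans hy.symm) ▸ hw)
  · rintro b ⟨⟨w, hw, rfl⟩, hb⟩
    exact ⟨w, ⟨hw, fun hwx => hb (by rw [mem_singleton_iff] at hwx ⊢; rw [hwx, hx])⟩, rfl⟩

def perms : List (Fin 3 → Fin 3) :=
  [![0, 1, 2], ![0, 2, 1], ![1, 0, 2], ![1, 2, 0], ![2, 0, 1], ![2, 1, 0]]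

def taus : List (Fin 6 → Fin 6) :=
  [![0, 1, 2, 3, 4, 5], ![1, 0, 2, 3, 5, 4], ![0, 2, 1, 4, 3, 5], ![2, 1, 0, 5, 4, 3],
   ![1, 2, 0, 5, 3, 4], ![2, 0, 1, 4, 5, 3]]

theorem perms_inj : ∀ s ∈ perms, ∀ i j, s i = s j → i = j := by decide +kernel

theorem taus_inj : ∀ τ ∈ taus, ∀ i j, τ i = τ j → i = j := by
  intro τ hτ
  simp only [taus, List.mem_cons, List.not_mem_nil, or_false] at hτ
  rcases hτ with h | h | h | h | h | h <;> subst h <;> decide

theorem taus_rev : ∀ τ ∈ taus, ∀ u, τ (Fin.rev u) = Fin.rev (τ u) := by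
  intro τ hτ
  simp only [taus, List.mem_cons, List.not_mem_nil, or_false] at hτ
  rcases hτ with h | h | h | h | h | h <;> subst h <;> decide

theorem classes : ∀ x : Fin 3 → Fin 6, ∃ s ∈ perms, ∃ τ ∈ taus,
    act s τ (fun j => decide (3 ≤ x j)) x = ![0, 0, 0] ∨
    act s τ (fun j => decide (3 ≤ x j)) x = ![0, 0, 1] ∨
    act s τ (fun j => decide (3 ≤ x j)) x = ![0, 1, 2] := by decide +kernel

theorem BW_six (h0 : BW (reply (cubeLines 6) ![0, 0, 0] ![1, 1, 1]))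
    (h1 : BW (reply (cubeLines 6) ![0, 0, 1] ![1, 1, 1]))
    (h2 : BW (reply (cubeLines 6) ![0, 1, 2] ![1, 1, 1])) : BW (cubeLines 6) := by
  apply BW.node
  · rintro ⟨a, t, _, h⟩
    have : (fun j => if t j = 0 then a j else if t j = 1 then (0 : Fin 6) else Fin.rev 0) ∈
        (∅ : Set (Fin 3 → Fin 6)) := by rw [h]; exact ⟨0, rfl⟩
    exact this
  · intro x _
    obtain ⟨s, hs, τ, hτ, h⟩ := classes x
    rcases h with h | h | h
    · exact BW_reply_act _ (perms_inj s hs) (taus_inj τ hτ) (taus_rev τ hτ) h (by decide) h0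
    · exact BW_reply_act _ (perms_inj s hs) (taus_inj τ hτ) (taus_rev τ hτ) h (by decide) h1
    · exact BW_reply_act _ (perms_inj s hs) (taus_inj τ hτ) (taus_rev τ hτ) h (by decide) h2

end Pool.Agent.Helper582.Cube
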